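import Pool.Agent.Lib.CR5.SpecH2

/-!
# CR5, block H: assembly of `S_CORE` (`S_hCore`)
-/

open MeasureTheory Set Filter Topology
open scoped ENNReal ComplexConjugate

noncomputable section

namespace Pool.Agent.CR5

namespace HhCore

theorem near_mono {a : Str} {m m' : ℕ} {ε ε' : ℝ} (h : Near a m ε) (hm : m' ≤ m) (h0 : 0 ≤ ε)
    (hε : ε ≤ ε') : Near a m' ε' :=
  ⟨h.sm, h.out, fun j l i hi x =>
    (h.bd j l i (hi.trans hm) x).trans (pow_le_pow_left₀ h0 hε 2)⟩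

theorem hyp_mono {a : Str} {h : ℕ → ℝ} {m : ℕ} {ε ε' lam R : ℝ} {F : Mp}
    (hF : HypF a h m ε lam R F) (h0 : 0 ≤ ε) (hε : ε ≤ ε') : HypF a h m ε' lam R F :=
  ⟨hF.sm, hF.out, fun k i hi x => (hF.c5 k i hi x).trans (pow_le_pow_left₀ h0 hε 2), hF.nn, hF.er⟩

theorem tst_sub {f g : E5 → ℂ} (hf : Sm f) (hg : Sm g) (h : ∀ x, 3 / 4 ≤ ‖x‖ → f x = g x) :
    Tst fun x => f x - g x := by
  refine ⟨hf.sub hg, HasCompactSupport.intro (isCompact_closedBall (0 : E5) (3 / 4)) ?_⟩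
  intro x hx
  rw [Metric.mem_closedBall, dist_zero_right, not_le] at hx
  rw [h x hx.le, sub_self]

theorem smF0 (k : Fin 3) : Sm (F0 k) := by
  unfold F0
  by_cases h0 : k = 0
  · simp only [h0, if_true]
    exact Sm.zc 0
  · by_cases h1 : k = 1
    · simp only [h1]
      exact Sm.zc 1
    · simp only [h0, h1, if_false]
      refine (Sm.coord 4).add ((Sm.const _).mul (Sm.ofReal ?_))
      unfold zz
      exact ((((contDiff_coord 0).pow 2).add ((contDiff_coord 1).pow 2)).add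
        ((contDiff_coord 2).pow 2)).add ((contDiff_coord 3).pow 2)

theorem tendsto_dz {f : ℕ → E5 → ℂ} {G : E5 → ℂ} {x : E5}
    (h : ∀ i, Tendsto (fun k => pd i (f k) x) atTop (𝓝 (pd i G x))) (l : Fin 3) :
    Tendsto (fun k => dz l (f k) x) atTop (𝓝 (dz l G x)) := by
  rcases fin3_cases l with rfl | rfl | rfl
  · simp only [dz_zero]
    exact ((h 0).sub ((h 1).const_mul _)).div_const _
  · simp only [dz_one]
    exact ((h 2).sub ((h 3).const_mul _)).div_const _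
  · simp only [dz_two]
    exact h 4

theorem tendsto_db {f : ℕ → E5 → ℂ} {G : E5 → ℂ} {x : E5}
    (h : ∀ i, Tendsto (fun k => pd i (f k) x) atTop (𝓝 (pd i G x))) (l : Fin 3) :
    Tendsto (fun k => db l (f k) x) atTop (𝓝 (db l G x)) := by
  rcases fin3_cases l with rfl | rfl | rfl
  · simp only [db_zero]
    exact ((h 0).add ((h 1).const_mul _)).div_const _
  · simp only [db_one]
    exact ((h 2).add ((h 3).const_mul _)).div_const _
  · simp only [db_two]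
    exact h 4

theorem tendsto_L (a : Str) (j : Fin 2) {f : ℕ → E5 → ℂ} {G : E5 → ℂ} {x : E5}
    (h : ∀ i, Tendsto (fun k => pd i (f k) x) atTop (𝓝 (pd i G x))) :
    Tendsto (fun k => L a j (f k) x) atTop (𝓝 (L a j G x)) := by
  simp only [L]
  exact (tendsto_db h _).add (tendsto_finsetSum _ fun l _ => (tendsto_dz h l).const_mul _)

theorem norm_le_sq0 {f : E5 → ℂ} {x : E5} {ε : ℝ} (h : Real.sqrt (sq 0 f x) ≤ ε) : ‖f x‖ ≤ ε := by
  rw [sq_zero', Real.sqrt_sq (norm_nonneg _)] at h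
  exact h

theorem norm_pd_le_sq1 {f : E5 → ℂ} {x : E5} {ε : ℝ} (i : Fin 5)
    (h : Real.sqrt (sq 1 f x) ≤ ε) : ‖pd i f x‖ ≤ ε :=
  norm_le_sq0 ((Real.sqrt_le_sqrt (sq_pd_le 0 f i x)).trans h)

end HhCore

open HhCore

theorem phCore : S_hCore := by
  intro hSTG hELP hSOB hWt1 hWt2 hPr hGd hHyp hStp hUp hSeq hSup hLim hSt0 hR hEnd hBdE
  obtain ⟨εS, hεS, ε1S, hε1S, hS⟩ := hSTG
  choose CS hCS1 hCS using hS
  obtain ⟨ε1E, hε1E, hε1E', hE⟩ := hEnd hELP hPr hHyp hR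
  obtain ⟨ε1, hε1, h1S, h1E, h1T⟩ : ∃ ε1 : ℝ, 0 < ε1 ∧ ε1 ≤ ε1S ∧ ε1 ≤ ε1E ∧ ε1 ≤ 1 / 1000 :=
    ⟨min (min ε1S ε1E) (1 / 1000), by positivity,
      (min_le_left _ _).trans (min_le_left _ _), (min_le_left _ _).trans (min_le_right _ _),
      min_le_right _ _⟩
  obtain ⟨l0, hl0, hl⟩ := (hGd hPr).2 (CS MM 1) ε1 hε1
  obtain ⟨hgood, hexp⟩ := hl l0 le_rfl
  obtain ⟨ε0, hε0, h0⟩ := hSt0 hWt1 hPr l0 ε1 hl0 hε1.le
  obtain ⟨ε, hε, hεa, hεb, hεc⟩ : ∃ ε : ℝ, 0 < ε ∧ ε ≤ εS ∧ ε ≤ ε0 ∧ ε ≤ 1 :=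
    ⟨min (min εS ε0) 1, by positivity,
      (min_le_left _ _).trans (min_le_left _ _), (min_le_left _ _).trans (min_le_right _ _),
      min_le_right _ _⟩
  refine ⟨ε, hε, fun a ha hkap => ?_⟩
  -- the bounds of the structure
  have hB : ∀ m : ℕ, ∃ B : ℝ, BdA a (m + 6) B := fun m => by
    obtain ⟨B, -, hB⟩ := hBdE a (MM + 6) ε ha (m + 6)
    exact ⟨B, hB⟩
  choose Bm hBm using hB
  obtain ⟨Bf, hBf1, hBf⟩ : ∃ Bf : ℕ → ℝ, Bf MM = 1 ∧ ∀ m, BdA a (m + 6) (Bf m) := by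
    refine ⟨fun m => if m = MM then 1 else Bm m, if_pos rfl, fun m => ?_⟩
    by_cases hm : m = MM
    · simp only [hm, if_true]
      intro j l i hi x
      exact (ha.bd j l i hi x).trans (pow_le_pow_left₀ hε.le hεc 2)
    · simp only [hm, if_false]
      exact hBm m
  have hNS : Near a MM εS := near_mono ha (by omega) hε.le hεa
  have hStg : ∀ m, MM ≤ m → StgP a ε1 m (CS m (Bf m)) := by
    intro m _ h hadm lam R δ h1 h2 h3 h4 h5 F hF hlog
    exact hCS m (Bf m) a hNS (hBf m) hkap h hadm lam R δ h1 h2 h3 h4 h5 F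
      (hyp_mono hF hε1.le h1S) hlog
  have hsta0 := h0 a (near_mono ha le_rfl hε.le hεb)
  obtain ⟨M, H, FF, hI⟩ := hSeq hPr hGd hHyp hStp hWt2 hUp a l0 ε1 (fun m => CS m (Bf m)) hε1.le
    (by linarith) hl0 hStg (by simp only [hBf1]; exact hgood) hexp hsta0
  -- the majorant
  have hu0 : ∀ k, 0 ≤ Real.exp (-(lk l0 k * dk k)) := fun k => (Real.exp_pos _).le
  have husum : Summable fun k => Real.exp (-(lk l0 k * dk k)) := by
    refine Summable.of_nonneg_of_le hu0 hexp ?_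
    have h1 : Summable fun k : ℕ => ((1 : ℝ) / 2) ^ k :=
      summable_geometric_of_lt_one (by norm_num) (by norm_num)
    have h2 := (h1.mul_left (ε1 * (1 / 4)))
    refine h2.congr fun k => ?_
    rw [pow_add]; ring
  have hlim : ∀ j : Fin 3, ∃ G : E5 → ℂ, Sm G ∧
      (∀ x, Tendsto (fun k => FF k j x) atTop (𝓝 (G x))) ∧
      ∀ i x, Tendsto (fun k => pd i (FF k j) x) atTop (𝓝 (pd i G x)) := by
    intro j
    refine hLim (fun k => FF k j) (fun k => Real.exp (-(lk l0 k * dk k)))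
      (fun k => (hI.st k).sm j) husum hu0 (fun k i hi x => hI.c5 k j i (by omega) x) ?_
    exact hSup hSOB M H (fun k y => FF (k + 1) j y - FF k j y)
      (fun k => Real.exp (-(lk l0 k * dk k)))
      (fun k => tst_sub ((hI.st (k + 1)).sm j) ((hI.st k).sm j) fun x hx => by
        rw [(hI.st (k + 1)).out j x hx, (hI.st k).out j x hx])
      (fun k i => (hI.st k).adm.pos i) hI.eq hI.mono hI.unb (fun k => hI.nn k j)
  choose F hFsm hFt hFpd using hlim
  have hc5 : ∀ k j i, i ≤ 5 → ∀ x,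
      Real.sqrt (sq i (fun y => FF k j y - F0 j y) x) ≤ 1 / 100 := by
    intro k j i hi x
    refine ((hI.st k).c5 j i hi x).trans ?_
    have h1 : (0 : ℝ) ≤ (1 / 2) ^ k := by positivity
    have h2 : ε1 * (1 - (1 / 2) ^ k) ≤ ε1 * 1 := mul_le_mul_of_nonneg_left (by linarith) hε1.le
    linarith
  refine ⟨F, fun k => (hFsm k).contDiffOn, ?_, ?_, ?_⟩
  · intro j k x hx
    have h1 := hE a l0 ε1 M H FF ha.sm hl0 hε1.le h1E hI j k x hx
    have h2 : Tendsto (fun n => L a j (FF n k) x) atTop (𝓝 (L a j (F k) x)) :=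
      tendsto_L a j fun i => hFpd k i x
    exact tendsto_nhds_unique h2 h1
  · intro k x _
    refine le_of_tendsto' (((hFt k x).sub_const (F0 k x)).norm) fun n => ?_
    exact norm_le_sq0 (f := fun y => FF n k y - F0 k y) (hc5 n k 0 (by norm_num) x)
  · intro k i x _
    refine le_of_tendsto' (((hFpd k i x).sub_const (pd i (F0 k) x)).norm) fun n => ?_
    have h1 := norm_pd_le_sq1 i (hc5 n k 1 (by norm_num) x)
    rw [pd_sub ((hI.st n).sm k) (smF0 k)] at h1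
    exact h1

end Pool.Agent.CR5
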