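import Pool.Agent.Lib.CR5.SpecH2

/-!
# CR5, block H2: hEnd, the errors tend to zero (helper6, after helper69's docstring)
-/

open MeasureTheory Set Filter Topology
open scoped ENNReal ComplexConjugate

noncomputable section

namespace Pool.Agent.CR5

namespace HhEnd

theorem hyp_mono {a : Str} {h : ℕ → ℝ} {m : ℕ} {ε1 ε2 lam R : ℝ} {F : Mp} (h0 : 0 ≤ ε1)
    (hle : ε1 ≤ ε2) (H : HypF a h m ε1 lam R F) : HypF a h m ε2 lam R F :=
  ⟨H.sm, H.out, fun k i hi x => (H.c5 k i hi x).trans (pow_le_pow_left₀ h0 hle 2), H.nn, H.er⟩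

theorem lk_tendsto {l0 : ℝ} (hl : 1 ≤ l0) : Tendsto (fun k => lk l0 k) atTop atTop := by
  unfold lk
  exact (tendsto_pow_atTop_atTop_of_one_lt (by norm_num : (1 : ℝ) < 2)).atTop_mul_const
    (by linarith)

theorem bound_tendsto {l0 C : ℝ} (hl : 1 ≤ l0) (p : ℕ) :
    Tendsto (fun k => (C * (2000 * lk l0 k ^ 2)) ^ p * Real.exp (-(lk l0 k / 50))) atTop
      (𝓝 0) := by
  have h1 : Tendsto (fun k => lk l0 k / 50) atTop atTop :=
    (lk_tendsto hl).atTop_div_const (by norm_num)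
  have h2 := (Real.tendsto_pow_mul_exp_neg_atTop_nhds_zero (2 * p)).comp h1
  have h3 := h2.const_mul ((C * 2000) ^ p * 50 ^ (2 * p))
  rw [mul_zero] at h3
  refine h3.congr fun k => ?_
  simp only [Function.comp]
  have e : (C * (2000 * lk l0 k ^ 2)) ^ p
      = (C * 2000) ^ p * 50 ^ (2 * p) * (lk l0 k / 50) ^ (2 * p) := by
    have e1 : (50 : ℝ) ^ (2 * p) * (lk l0 k / 50) ^ (2 * p) = lk l0 k ^ (2 * p) := by
      rw [← mul_pow]; congr 1; field_simp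
    calc (C * (2000 * lk l0 k ^ 2)) ^ p = (C * 2000 * lk l0 k ^ 2) ^ p := by ring
      _ = (C * 2000) ^ p * lk l0 k ^ (2 * p) := by rw [mul_pow, pow_mul]
      _ = _ := by rw [← e1]; ring
  rw [e]; ring

theorem lk_div_dk {l0 : ℝ} (hl : 1 ≤ l0) (k : ℕ) : lk l0 k / dk k ≤ 2000 * lk l0 k ^ 2 := by
  unfold lk dk
  have h1 : (2 : ℝ) ^ k * l0 / ((3 / 4) ^ k / 2000) = 2000 * l0 * (8 / 3) ^ k := by
    have h3 : (8 / 3 : ℝ) ^ k = 2 ^ k / (3 / 4) ^ k := by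
      rw [← div_pow]; norm_num
    rw [h3]
    field_simp
  rw [h1]
  have h2 : (8 / 3 : ℝ) ^ k ≤ 4 ^ k := pow_le_pow_left₀ (by norm_num) (by norm_num) k
  have h4 : ((2 : ℝ) ^ k * l0) ^ 2 = 4 ^ k * l0 ^ 2 := by
    rw [mul_pow, ← pow_mul, mul_comm k 2, pow_mul]; norm_num
  rw [h4]
  have h5 : (0 : ℝ) < 4 ^ k := by positivity
  have h6 : l0 ≤ l0 ^ 2 := by nlinarith
  calc 2000 * l0 * (8 / 3) ^ k ≤ 2000 * l0 * 4 ^ k :=
        mul_le_mul_of_nonneg_left h2 (by positivity)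
    _ ≤ 2000 * l0 ^ 2 * 4 ^ k := mul_le_mul_of_nonneg_right (by linarith) h5.le
    _ = _ := by ring

end HhEnd

open HhEnd in
theorem phEnd : S_hEnd := by
  intro hELP hPr hHyp hR
  obtain ⟨ε2, hε2, C, p, hC, hE⟩ := hELP
  refine ⟨min ε2 (1 / 1000), lt_min hε2 (by norm_num), min_le_right _ _, ?_⟩
  intro a l0 e M H FF ha hl he0 he hI j i x hx
  have he1 : e ≤ ε2 := he.trans (min_le_left _ _)
  have he2 : e ≤ 1 / 1000 := he.trans (min_le_right _ _)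
  refine squeeze_zero_norm (fun k => ?_) (bound_tendsto (C := C) hl p)
  obtain ⟨hR1, hR2, hd0, hd1, _⟩ := hPr.1 k
  obtain ⟨hk1, _, _, _⟩ := hPr.2.2 l0 hl k
  have hHk := hHyp a l0 e k (M k) (H k) (FF k) he0 (hI.st k)
  have hH2 := hyp_mono he0 he1 hHk
  have hr : (gam (FF k) x).im ≤ 1 / 50 := by
    refine hR (FF k) (fun y => ?_) x hx
    exact (hHk.c5 2 0 (by norm_num) y).trans (pow_le_pow_left₀ he0 he2 2)
  have hmem : x ∈ Dm (FF k) (Rk k - dk k) := ⟨by linarith, by linarith⟩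
  have h1 := hE a (H k) (M k) (lk l0 k) (Rk k) (dk k) (FF k) ha (hI.st k).adm hk1 (by linarith)
    hR2 hd0 hd1 hH2 j i 0 (by norm_num) x hmem
  rw [sq_zero'] at h1
  have hexp := Real.exp_pos (-(lk l0 k * (Rk k - (gam (FF k) x).im)))
  have hp0 : 0 ≤ (C * lk l0 k / dk k) ^ p := by positivity
  have h2 : ‖EF a (FF k) j i x‖
      ≤ (C * lk l0 k / dk k) ^ p * Real.exp (-(lk l0 k * (Rk k - (gam (FF k) x).im))) :=
    (sq_le_sq₀ (norm_nonneg _) (by positivity)).1 h1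
  refine h2.trans ?_
  have h3 : (C * lk l0 k / dk k) ^ p ≤ (C * (2000 * lk l0 k ^ 2)) ^ p := by
    refine pow_le_pow_left₀ (by positivity) ?_ p
    rw [mul_div_assoc]
    exact mul_le_mul_of_nonneg_left (lk_div_dk hl k) (by linarith)
  have h4 : Real.exp (-(lk l0 k * (Rk k - (gam (FF k) x).im)))
      ≤ Real.exp (-(lk l0 k / 50)) := by
    apply Real.exp_le_exp.2
    nlinarith
  exact mul_le_mul h3 h4 hexp.le (by positivity)

end Pool.Agent.CR5
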