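import Pool.Agent.Lib.CR5.SpecH2

/-!
# CR5, block H2: hGd, the conditions on the parameters (helper6, after helper69's docstring)
-/

open MeasureTheory Set Filter Topology
open scoped ENNReal ComplexConjugate

noncomputable section

namespace Pool.Agent.CR5

namespace HhGd

theorem S_le (hPr : S_hPr) {l0 : ℝ} (hl : 1 ≤ l0) (n : ℕ) :
    0 ≤ Real.log (lk l0 n) + Real.log (1 / dk n) ∧
    Real.log (lk l0 n) + Real.log (1 / dk n) ≤ n + 8 + Real.log l0 := by
  obtain ⟨h1, _, h2⟩ := hPr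
  obtain ⟨_, _, hd0, hd1, _⟩ := h1 n
  obtain ⟨hk1, _, _, _⟩ := h2 l0 hl n
  have hid : 1 ≤ 1 / dk n := by
    rw [le_div_iff₀ hd0]; linarith
  constructor
  · exact add_nonneg (Real.log_nonneg hk1) (Real.log_nonneg hid)
  · have e : lk l0 n * (1 / dk n) = (8 / 3) ^ n * (2000 * l0) := by
      unfold lk dk
      rw [one_div, inv_div]
      have h3 : (8 / 3 : ℝ) ^ n = 2 ^ n / (3 / 4) ^ n := by
        rw [← div_pow]; norm_num
      rw [h3]
      ring
    have hp1 : 0 < lk l0 n := by linarith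
    have hp2 : 0 < 1 / dk n := by positivity
    rw [← Real.log_mul hp1.ne' hp2.ne', e, Real.log_mul (by positivity) (by positivity),
      Real.log_pow, Real.log_mul (by norm_num) (by positivity)]
    have e1 : Real.log (8 / 3) ≤ 1 := by
      rw [Real.log_le_iff_le_exp (by norm_num)]
      have := Real.exp_one_gt_d9
      linarith
    have e2 : Real.log 2000 ≤ 8 := by
      rw [Real.log_le_iff_le_exp (by norm_num)]
      have h3 := Real.exp_one_gt_d9
      have h4 : Real.exp 8 = Real.exp 1 ^ 8 := by rw [← Real.exp_nat_mul]; norm_num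
      rw [h4]
      calc (2000 : ℝ) ≤ 2.7 ^ 8 := by norm_num
        _ ≤ _ := pow_le_pow_left₀ (by norm_num) (by linarith) 8
    have hn : (0 : ℝ) ≤ n := Nat.cast_nonneg n
    nlinarith

theorem pow98 (n : ℕ) : (n : ℝ) + 8 ≤ 8 * (9 / 8) ^ n := by
  have h := one_add_mul_le_pow (a := (1 / 8 : ℝ)) (by norm_num) n
  have e : (1 + 1 / 8 : ℝ) = 9 / 8 := by norm_num
  rw [e] at h
  linarith

theorem part1 (hPr : S_hPr) (C l0 : ℝ) (hl : 1 ≤ l0) : ∃ k, Good l0 C k := by
  set C' := max C 0 with hC'e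
  have hC' : 0 ≤ C' := le_max_right _ _
  have t1 := tendsto_self_mul_const_pow_of_lt_one (r := (8 / 9 : ℝ)) (by norm_num) (by norm_num)
  have t2 := tendsto_pow_atTop_nhds_zero_of_lt_one (r := (8 / 9 : ℝ)) (by norm_num) (by norm_num)
  have t3 := (t1.add (t2.const_mul (8 + Real.log l0))).const_mul C'
  have e0 : C' * (0 + (8 + Real.log l0) * 0) = 0 := by ring
  rw [e0] at t3
  have ev := t3.eventually_le_const (show (0 : ℝ) < l0 / 4000000 by positivity)
  obtain ⟨k, hk⟩ := eventually_atTop.1 ev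
  refine ⟨k, fun n hn => ?_⟩
  obtain ⟨s0, s1⟩ := S_le hPr hl n
  obtain ⟨_, _, _, h4⟩ := hPr.2.2 l0 hl n
  rw [h4]
  have h5 := hk n hn
  have hp : (0 : ℝ) < (9 / 8) ^ n := by positivity
  have e1 : (8 / 9 : ℝ) ^ n * (9 / 8) ^ n = 1 := by
    rw [← mul_pow]; norm_num
  calc C * (Real.log (lk l0 n) + Real.log (1 / dk n))
      ≤ C' * (Real.log (lk l0 n) + Real.log (1 / dk n)) :=
        mul_le_mul_of_nonneg_right (le_max_left _ _) s0
    _ ≤ C' * (n + 8 + Real.log l0) := mul_le_mul_of_nonneg_left s1 hC'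
    _ = C' * ((n : ℝ) * (8 / 9) ^ n + (8 + Real.log l0) * (8 / 9) ^ n) * (9 / 8) ^ n := by
        linear_combination (-(C' * (n + 8 + Real.log l0))) * e1
    _ ≤ l0 / 4000000 * (9 / 8) ^ n := mul_le_mul_of_nonneg_right h5 hp.le
    _ = l0 * (9 / 8) ^ n / 4000000 := by ring

theorem expo {η l0 : ℝ} (hη : 0 < η) (h4 : 4000 ≤ l0) (h5 : 2000 * Real.log (4 / η) ≤ l0) (k : ℕ) :
    Real.exp (-(l0 * (3 / 2) ^ k / 2000)) ≤ η * (1 / 2) ^ (k + 2) := by
  have h := one_add_mul_le_pow (a := (1 / 2 : ℝ)) (by norm_num) k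
  have e : (1 + 1 / 2 : ℝ) = 3 / 2 := by norm_num
  rw [e] at h
  have hk : (0 : ℝ) ≤ k := Nat.cast_nonneg k
  have h1 : -(l0 * (3 / 2) ^ k / 2000) ≤ -(l0 / 2000) + (k : ℝ) * (-1) := by
    nlinarith
  have h2 : Real.exp (-(l0 / 2000)) ≤ η / 4 := by
    have h6 : -(l0 / 2000) ≤ -Real.log (4 / η) := by linarith
    refine (Real.exp_le_exp.2 h6).trans (le_of_eq ?_)
    rw [← Real.log_inv, Real.exp_log (by positivity), inv_div]
  have h3 : Real.exp (-1) ≤ 1 / 2 := by
    rw [Real.exp_neg]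
    have := Real.exp_one_gt_d9
    rw [inv_le_comm₀ (Real.exp_pos 1) (by norm_num)]
    norm_num
    linarith
  calc Real.exp (-(l0 * (3 / 2) ^ k / 2000)) ≤ Real.exp (-(l0 / 2000) + (k : ℝ) * (-1)) :=
        Real.exp_le_exp.2 h1
    _ = Real.exp (-(l0 / 2000)) * Real.exp (-1) ^ k := by
        rw [Real.exp_add, Real.exp_nat_mul]
    _ ≤ η / 4 * (1 / 2) ^ k :=
        mul_le_mul h2 (pow_le_pow_left₀ (Real.exp_pos _).le h3 k)
          (by positivity) (by positivity)
    _ = _ := by rw [pow_add]; ring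

theorem part2 (hPr : S_hPr) (C η : ℝ) (hη : 0 < η) : ∃ l1 : ℝ, 1 ≤ l1 ∧ ∀ l0, l1 ≤ l0 →
    Good l0 C 0 ∧ ∀ k, Real.exp (-(lk l0 k * dk k)) ≤ η * (1 / 2) ^ (k + 2) := by
  set C' := max C 0 with hC'e
  have hC' : 0 ≤ C' := le_max_right _ _
  have ho := Real.isLittleO_log_id_atTop.bound
    (show (0 : ℝ) < 1 / (8000000 * (C' + 1)) by positivity)
  obtain ⟨L, hL⟩ := eventually_atTop.1 ho
  refine ⟨max (max L 4000) (max (64000000 * C') (2000 * Real.log (4 / η))), ?_, ?_⟩
  · exact (show (1 : ℝ) ≤ 4000 by norm_num).trans ((le_max_right _ _).trans (le_max_left _ _))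
  intro l0 hl
  have a1 : L ≤ l0 := ((le_max_left _ _).trans (le_max_left _ _)).trans hl
  have a2 : (4000 : ℝ) ≤ l0 := ((le_max_right _ _).trans (le_max_left _ _)).trans hl
  have a3 : 64000000 * C' ≤ l0 := ((le_max_left _ _).trans (le_max_right _ _)).trans hl
  have a4 : 2000 * Real.log (4 / η) ≤ l0 := ((le_max_right _ _).trans (le_max_right _ _)).trans hl
  have a5 : 1 ≤ l0 := by linarith
  have hlog : 0 ≤ Real.log l0 := Real.log_nonneg a5
  constructor
  · intro n _
    obtain ⟨s0, s1⟩ := S_le hPr a5 n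
    obtain ⟨_, _, _, h4⟩ := hPr.2.2 l0 a5 n
    rw [h4]
    have hp : (1 : ℝ) ≤ (9 / 8) ^ n := one_le_pow₀ (by norm_num)
    have h6 := pow98 n
    have h7 := hL l0 a1
    rw [Real.norm_eq_abs, abs_of_nonneg hlog] at h7
    have h8 : ‖id l0‖ = l0 := by
      simp only [id, Real.norm_eq_abs]; exact abs_of_nonneg (by linarith)
    rw [h8] at h7
    have h9 : C' * Real.log l0 ≤ l0 / 8000000 := by
      have h10 : C' * Real.log l0 ≤ C' * (1 / (8000000 * (C' + 1)) * l0) :=
        mul_le_mul_of_nonneg_left h7 hC'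
      refine h10.trans ?_
      have h11 : C' * (1 / (8000000 * (C' + 1)) * l0) = (C' / (C' + 1)) * (l0 / 8000000) := by
        field_simp
      rw [h11]
      have h12 : C' / (C' + 1) ≤ 1 := by
        rw [div_le_one (by positivity)]; linarith
      have : 0 ≤ l0 / 8000000 := by positivity
      nlinarith
    have h13 : C' * (8 + Real.log l0) ≤ l0 / 4000000 := by
      nlinarith
    calc C * (Real.log (lk l0 n) + Real.log (1 / dk n))
        ≤ C' * (Real.log (lk l0 n) + Real.log (1 / dk n)) :=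
          mul_le_mul_of_nonneg_right (le_max_left _ _) s0
      _ ≤ C' * (n + 8 + Real.log l0) := mul_le_mul_of_nonneg_left s1 hC'
      _ ≤ C' * ((8 + Real.log l0) * (9 / 8) ^ n) := by
          refine mul_le_mul_of_nonneg_left ?_ hC'
          nlinarith
      _ = C' * (8 + Real.log l0) * (9 / 8) ^ n := by ring
      _ ≤ l0 / 4000000 * (9 / 8) ^ n := mul_le_mul_of_nonneg_right h13 (by positivity)
      _ = l0 * (9 / 8) ^ n / 4000000 := by ring
  · intro k
    obtain ⟨_, _, h3, _⟩ := hPr.2.2 l0 a5 k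
    rw [h3]
    exact expo hη a2 a4 k

end HhGd

open HhGd in
theorem phGd : S_hGd := fun hPr => ⟨fun C l0 hl => part1 hPr C l0 hl, fun C η hη => part2 hPr C η hη⟩

end Pool.Agent.CR5
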