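import Pool.Agent.Lib.CR5.SpecH2

/-!
# CR5, block H2: hHyp (helper34)
-/

open MeasureTheory Set Filter Topology
open scoped ENNReal ComplexConjugate

noncomputable section

namespace Pool.Agent.CR5

namespace HhHyp

theorem int_sq : ∀ (n : ℕ) {f : E5 → ℂ}, Tst f → Integrable (sq n f) volume
  | 0, f, hf => by
    have h1 : sq 0 f = (fun z : ℂ => ‖z‖ ^ 2) ∘ f := rfl
    rw [h1]
    refine Continuous.integrable_of_hasCompactSupport ?_ (hf.cs.comp_left (by simp))
    exact (continuous_norm.pow 2).comp hf.sm.cont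
  | n + 1, f, hf => by
    have h1 : sq (n + 1) f = fun x => ∑ k : Fin 5, sq n (pd k f) x := rfl
    rw [h1]
    exact integrable_finset_sum _ fun k _ => int_sq n (hf.pd k)

theorem tst_of_out {f : E5 → ℂ} (hf : Sm f) (h : ∀ x, 3 / 4 ≤ ‖x‖ → f x = 0) : Tst f := by
  refine ⟨hf, HasCompactSupport.intro (isCompact_closedBall (0 : E5) (3 / 4)) ?_⟩
  intro x hx
  refine h x ?_
  rw [Metric.mem_closedBall, dist_zero_right, not_le] at hx
  exact hx.le

end HhHyp

theorem phHyp : S_hHyp := by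
  intro a l0 ε1 k m h F h0 hS
  have hT : ∀ j, Tst (fun y => F j y - F0 j y) := fun j =>
    HhHyp.tst_of_out ((hS.sm j).sub (sm_F0 j)) fun x hx => by rw [hS.out j x hx, sub_self]
  have hp : (1 : ℝ) - (1 / 2) ^ k ≤ 1 := by
    have : (0 : ℝ) ≤ (1 / 2) ^ k := by positivity
    linarith
  refine ⟨hS.sm, hS.out, ?_, ?_, hS.er⟩
  · intro j i hi x
    have h1 := hS.c5 j i hi x
    have h2 : Real.sqrt (sq i (fun y => F j y - F0 j y) x) ≤ ε1 :=
      h1.trans (mul_le_of_le_one_right h0 hp)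
    exact (Real.sqrt_le_left h0).1 h2
  · intro j
    refine le_trans ?_ ((hS.nn j).trans hp)
    unfold NN
    refine Finset.sum_le_sum fun i _ => mul_le_mul_of_nonneg_left (Real.sqrt_le_sqrt ?_)
      (hS.adm.pos i).le
    exact setIntegral_mono_set (HhHyp.int_sq i (hT j)).integrableOn
      (Eventually.of_forall fun x => sq_nonneg' i _ x) (LE.le.eventuallyLE (Set.subset_univ _))

end Pool.Agent.CR5
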