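import Pool.Agent.Lib.CR5.SpecH2
import Pool.Agent.Lib.CR5.F.Ifd

/-!
# CR5, block H2: hLim, limits (helper6, after helper69's docstring)
-/

open MeasureTheory Set Filter Topology
open scoped ENNReal ComplexConjugate

noncomputable section

namespace Pool.Agent.CR5

theorem phLim : S_hLim := by
  intro f u hf hu hu0 h1 h2
  set v : ℕ → E5 → ℂ := fun k x => f (k + 1) x - f k x with hv
  have hvs : ∀ k, Sm (v k) := fun k => (hf (k + 1)).sub (hf k)
  choose c K hc using h2
  have b0 : ∀ k x, ‖v k x‖ ≤ u k := fun k x => by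
    have := h1 k 0 (by norm_num) x
    rwa [sq_zero', Real.sqrt_sq (norm_nonneg _)] at this
  have b1 : ∀ k x, ‖fderiv ℝ (v k) x‖ ≤ u k := fun k x => by
    have := (norm_ifd_le 1 (hvs k) x).trans (h1 k 1 le_rfl x)
    rwa [norm_iteratedFDeriv_one] at this
  have hg : Sm fun x => ∑' k, v k x := by
    refine contDiff_tsum_of_eventually (N := (⊤ : ℕ∞)) (v := fun i k => c i * u k)
      (fun k => hvs k) (fun i _ => hu.mul_left _) (fun i _ => ?_)
    rw [Nat.cofinite_eq_atTop]
    filter_upwards [eventually_ge_atTop (K i)] with k hk x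
    exact (norm_ifd_le i (hvs k) x).trans (hc i k hk x)
  have hs0 : ∀ y, Summable fun k => v k y := fun y =>
    Summable.of_norm_bounded hu fun k => b0 k y
  refine ⟨fun x => f 0 x + ∑' k, v k x, (hf 0).add hg, fun x => ?_, fun i x => ?_⟩
  · have e : ∀ n, f n x = f 0 x + ∑ k ∈ Finset.range n, v k x := fun n => by
      have := Finset.sum_range_sub (fun k => f k x) n
      rw [hv]
      simp only
      rw [this]; ring
    have e' : (fun k => f k x) = fun n => f 0 x + ∑ k ∈ Finset.range n, v k x := funext e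
    show Tendsto (fun k => f k x) atTop _
    rw [e']
    exact (hs0 x).hasSum.tendsto_sum_nat.const_add _
  · have hd : fderiv ℝ (fun y => ∑' k, v k y) x = ∑' k, fderiv ℝ (v k) x :=
      fderiv_tsum_apply hu (fun k => (hvs k).diff) (fun k y => b1 k y) (hs0 x) x
    have hs1 : Summable fun k => fderiv ℝ (v k) x :=
      Summable.of_norm_bounded hu fun k => b1 k x
    have hs : HasSum (fun k => fderiv ℝ (v k) x (e5 i)) ((∑' k, fderiv ℝ (v k) x) (e5 i)) :=
      (ContinuousLinearMap.apply ℝ ℂ (e5 i)).hasSum hs1.hasSum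
    have e2 : pd i (fun y => f 0 y + ∑' k, v k y) x
        = pd i (f 0) x + (∑' k, fderiv ℝ (v k) x) (e5 i) := by
      rw [pd_add (hf 0) hg]
      congr 1
      show fderiv ℝ (fun y => ∑' k, v k y) x (e5 i) = _
      rw [hd]
    have e3 : ∀ n, pd i (f n) x = pd i (f 0) x
        + ∑ k ∈ Finset.range n, fderiv ℝ (v k) x (e5 i) := fun n => by
      have h3 := Finset.sum_range_sub (fun k => pd i (f k) x) n
      have h4 : ∑ k ∈ Finset.range n, fderiv ℝ (v k) x (e5 i)
          = ∑ k ∈ Finset.range n, (pd i (f (k + 1)) x - pd i (f k) x) := by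
        refine Finset.sum_congr rfl fun k _ => ?_
        show pd i (v k) x = _
        rw [hv]
        exact pd_sub (hf (k + 1)) (hf k) i x
      rw [h4, h3]; ring
    rw [e2]
    have e4 : (fun n => pd i (f n) x) = fun n => pd i (f 0) x
        + ∑ k ∈ Finset.range n, fderiv ℝ (v k) x (e5 i) := funext e3
    show Tendsto (fun n => pd i (f n) x) atTop _
    rw [e4]
    exact hs.tendsto_sum_nat.const_add _

end Pool.Agent.CR5
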