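import Pool.Agent.Lib.CR5.SpecH2

/-!
# CR5, block H2: elementary facts on the parameters (helper37)
-/

open MeasureTheory Set Filter Topology
open scoped ENNReal ComplexConjugate

noncomputable section

namespace Pool.Agent.CR5

namespace HhPr

theorem Rk_eq (k : ℕ) : Rk k = 1 / 16 - 1 / 50 * (1 - (3 / 4) ^ k) := by
  induction k with
  | zero => simp [Rk]
  | succ k ih =>
    have h : Rk (k + 1) = Rk k - 10 * dk k := by
      simp only [Rk, Finset.sum_range_succ]; ring
    rw [h, ih, dk, pow_succ]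
    ring

end HhPr

theorem phPr : S_hPr := by
  refine ⟨fun k => ?_, by simp [Rk], fun l0 hl k => ?_⟩
  · have h0 : (0 : ℝ) < (3 / 4) ^ k := by positivity
    have h1 : ((3 : ℝ) / 4) ^ k ≤ 1 := pow_le_one₀ (by norm_num) (by norm_num)
    refine ⟨?_, ?_, ?_, ?_, ?_⟩
    · rw [HhPr.Rk_eq]; linarith
    · rw [HhPr.Rk_eq]; linarith
    · unfold dk; positivity
    · unfold dk; linarith
    · simp only [Rk, Finset.sum_range_succ]; ring
  · have h1 : (1 : ℝ) ≤ 2 ^ k := one_le_pow₀ (by norm_num)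
    refine ⟨?_, ?_, ?_, ?_⟩
    · unfold lk; nlinarith
    · unfold lk; rw [pow_succ]; ring
    · have e : ((3 : ℝ) / 2) ^ k = 2 ^ k * (3 / 4) ^ k := by
        rw [← mul_pow]; norm_num
      unfold lk dk; rw [e]; ring
    · have e : ((9 : ℝ) / 8) ^ k = 2 ^ k * ((3 / 4) ^ k * (3 / 4) ^ k) := by
        rw [← mul_pow, ← mul_pow]; norm_num
      unfold lk dk; rw [e]; ring

end Pool.Agent.CR5
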