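import Pool.Agent.Lib.CR5.SpecH2

/-!
# CR5, hR
-/

open MeasureTheory Set Filter Topology
open scoped ENNReal ComplexConjugate

noncomputable section

namespace Pool.Agent.CR5

theorem phR : S_hR := by
  intro F hF x hx
  have h1 := hF x
  rw [sq_zero'] at h1
  have h2 : ‖F 2 x - F0 2 x‖ ≤ 1 / 1000 := (sq_le_sq₀ (norm_nonneg _) (by norm_num)).1 h1
  have h3 : |(F 2 x - F0 2 x).re| ≤ 1 / 1000 := (Complex.abs_re_le_norm _).trans h2
  have h4 : |(F 2 x - F0 2 x).im| ≤ 1 / 1000 := (Complex.abs_im_le_norm _).trans h2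
  have hn : zz x + x 4 ^ 2 = ‖x‖ ^ 2 := by
    rw [EuclideanSpace.norm_sq_eq, Fin.sum_univ_five]
    simp only [Real.norm_eq_abs, sq_abs, zz]
  have hre : (F0 2 x).re = x 4 := by simp [F0]
  have him : (F0 2 x).im = zz x := by simp [F0]
  rw [Complex.sub_re, hre, abs_le] at h3
  rw [Complex.sub_im, him, abs_le] at h4
  have hg : (gam F x).im = (F 2 x).im + ((F 2 x).re ^ 2 - (F 2 x).im ^ 2) / 4 := by
    simp only [gam, Complex.add_im, Complex.mul_im, pow_two, Complex.mul_re, Complex.div_ofNat_re,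
      Complex.div_ofNat_im, Complex.I_re, Complex.I_im]
    ring
  have hz : 0 ≤ zz x := by unfold zz; positivity
  have hx2 : ‖x‖ ^ 2 ≤ 1 / 64 := by
    have h0 := norm_nonneg x
    nlinarith
  have ht : x 4 ^ 2 ≤ 1 / 64 := by nlinarith
  have ht1 : |x 4| ≤ 1 / 8 := by
    apply abs_le_of_sq_le_sq _ (by norm_num)
    linarith
  rw [abs_le] at ht1
  have hp : (F 2 x).re ^ 2 ≤ x 4 ^ 2 + 1 / 1000 := by
    nlinarith [sq_nonneg ((F 2 x).re - x 4)]
  rw [hg]
  nlinarith [sq_nonneg (F 2 x).im, sq_nonneg (x 4)]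

end Pool.Agent.CR5
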