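import Pool.Agent.Lib.CR5.SpecH2

/-!
# CR5, block H: the iteration (`S_hSeq`)
-/

open MeasureTheory Set Filter Topology
open scoped ENNReal ComplexConjugate

noncomputable section

namespace Pool.Agent.CR5

namespace HSeq

/-- The states after `k` stages for which the next stage is possible. -/
structure St (a : Str) (l0 ε1 : ℝ) (Cf : ℕ → ℝ) (k : ℕ) : Type where
  m : ℕ
  h : ℕ → ℝ
  F : Mp
  sta : Sta a l0 ε1 k m h F
  good : Good l0 (Cf m) k

theorem good_mono {l0 C : ℝ} {k n : ℕ} (h : Good l0 C k) (hkn : k ≤ n) : Good l0 C n :=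
  fun j hj => h j (hkn.trans hj)

/-- The relation between consecutive states. -/
structure Rel {a : Str} {l0 ε1 : ℝ} {Cf : ℕ → ℝ} {k : ℕ} (s : St a l0 ε1 Cf k)
    (t : St a l0 ε1 Cf (k + 1)) : Prop where
  eq : ∀ i ≤ s.m, t.h i = s.h i
  mono : s.m ≤ t.m
  up : Good l0 (Cf (s.m + 1)) (k + 1) → t.m = s.m + 1
  nn : ∀ j, NN s.h s.m Set.univ (fun y => t.F j y - s.F j y) ≤ Real.exp (-(lk l0 k * dk k))
  c5 : ∀ j i, i ≤ 5 → ∀ x,
    Real.sqrt (sq i (fun y => t.F j y - s.F j y) x) ≤ Real.exp (-(lk l0 k * dk k))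

end HSeq

open HSeq

theorem phSeq : S_hSeq := by
  intro hPr hGd hHyp hStp hWt hUp a l0 ε1 Cf he0 he1 hl hStg hG0 hexp hS0
  obtain ⟨hG1, -⟩ := hGd hPr
  have step : ∀ (k : ℕ) (s : St a l0 ε1 Cf k), ∃ t : St a l0 ε1 Cf (k + 1), Rel s t := by
    intro k s
    obtain ⟨F', hF', hnn, hc5⟩ := hStp hPr hHyp a l0 ε1 k s.m s.h s.F (Cf s.m) he0 he1 hl
      (hStg s.m s.sta.adm.big) s.sta (s.good k le_rfl) (hexp k)
    obtain ⟨h1, h', hh', h2⟩ := hUp hWt hPr a l0 ε1 k s.m s.h F' hl he0 hF'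
    by_cases hg : Good l0 (Cf (s.m + 1)) (k + 1)
    · exact ⟨⟨s.m + 1, h', F', h2, hg⟩, hh', Nat.le_succ _, fun _ => rfl, hnn, hc5⟩
    · exact ⟨⟨s.m, s.h, F', h1, good_mono s.good (Nat.le_succ k)⟩, fun _ _ => rfl, le_rfl,
        fun h => absurd h hg, hnn, hc5⟩
  choose nxt hnxt using step
  let seq : (k : ℕ) → St a l0 ε1 Cf k := fun k =>
    Nat.rec (motive := fun k => St a l0 ε1 Cf k) ⟨MM, fun _ => 1, F0, hS0, hG0⟩
      (fun k s => nxt k s) k
  have hseq : ∀ k, Rel (seq k) (seq (k + 1)) := fun k => hnxt k (seq k)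
  have hmono : Monotone fun k => (seq k).m := monotone_nat_of_le_succ fun k => (hseq k).mono
  refine ⟨fun k => (seq k).m, fun k => (seq k).h, fun k => (seq k).F,
    ⟨fun k => (seq k).sta, fun k => (hseq k).eq, fun k => (hseq k).mono, ?_,
      fun k => (hseq k).nn, fun k => (hseq k).c5⟩⟩
  intro m
  induction m with
  | zero => exact ⟨0, Nat.zero_le _⟩
  | succ m ih =>
    obtain ⟨k, hk⟩ := ih
    obtain ⟨n0, hn0⟩ := hG1 (Cf (m + 1)) l0 hl
    have h1 : m ≤ (seq (max k n0)).m := hk.trans (hmono (le_max_left k n0))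
    rcases Nat.lt_or_ge m (seq (max k n0)).m with h2 | h2
    · exact ⟨max k n0, h2⟩
    · have h3 : (seq (max k n0)).m = m := le_antisymm h2 h1
      refine ⟨max k n0 + 1, ?_⟩
      have h4 := (hseq (max k n0)).up (by
        rw [h3]
        exact good_mono hn0 ((le_max_right k n0).trans (Nat.le_succ _)))
      rw [h4, h3]

end Pool.Agent.CR5
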