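import Pool.Agent.Lib.CR5.SpecH2
import Pool.Agent.Lib.CR5.G.StsA

/-!
# CR5, block H2: hSt0, the start of the iteration (helper6, after helper69's docstring)
-/

open MeasureTheory Set Filter Topology
open scoped ENNReal ComplexConjugate

noncomputable section

namespace Pool.Agent.CR5

namespace HhSt0

/-- Every smooth function has bounded derivatives on the unit ball. -/
theorem bo_ex (n : ℕ) {g : E5 → ℂ} (hg : Sm g) :
    ∃ C : ℝ, 0 ≤ C ∧ Bo n (Metric.ball 0 1) g C := by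
  have h : ∀ i : ℕ, ∃ M : ℝ, ∀ x ∈ Metric.closedBall (0 : E5) 1, sq i g x ≤ M := by
    intro i
    obtain ⟨M, hM⟩ := ((isCompact_closedBall (0 : E5) 1).image (sq_continuous i hg)).bddAbove
    exact ⟨M, fun x hx => hM ⟨x, hx, rfl⟩⟩
  choose M hM using h
  refine ⟨1 + ∑ i ∈ Finset.range (n + 1), |M i|, by positivity, fun i hi x hx => ?_⟩
  have h1 : |M i| ≤ ∑ i ∈ Finset.range (n + 1), |M i| :=
    Finset.single_le_sum (f := fun i => |M i|) (fun i _ => abs_nonneg _)
      (Finset.mem_range.2 (by omega))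
  have h2 := hM i x (Metric.ball_subset_closedBall hx)
  have h3 := le_abs_self (M i)
  have h4 := abs_nonneg (M i)
  nlinarith

theorem L_diff (a : Str) (j : Fin 2) (i : Fin 3) (x : E5) :
    L a j (F0 i) x = ∑ l, (a j l x - a0 j l x) * dz l (F0 i) x := by
  have h0 := Stsx.L0_F0 j i x
  have h1 : L a j (F0 i) x - L a0 j (F0 i) x = ∑ l, (a j l x - a0 j l x) * dz l (F0 i) x := by
    unfold L
    simp only [sub_mul, Finset.sum_sub_distrib]
    ring
  rw [h0, sub_zero] at h1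
  exact h1

end HhSt0

open HhSt0 in
theorem phSt0 : S_hSt0 := by
  intro hW hPr l0 ε1 hl hε1
  have hex : Sm (ex l0 F0) := ex_sm sm_F0 l0
  obtain ⟨C3, hC3, hB3⟩ := bo_ex MM hex
  have hdz : ∀ l i : Fin 3, ∃ C : ℝ, 0 ≤ C ∧ Bo MM (Metric.ball 0 1) (dz l (F0 i)) C :=
    fun l i => bo_ex MM ((sm_F0 i).dz l)
  choose C1 hC1 hB1 using hdz
  have hc := cmG_pos MM
  -- the constant
  set K : ℝ := ∑ i : Fin 3, cmG MM * C3 * ∑ l : Fin 3, cmG MM * C1 l i with hK
  have hterm : ∀ i : Fin 3, 0 ≤ cmG MM * C3 * ∑ l : Fin 3, cmG MM * C1 l i := fun i =>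
    mul_nonneg (mul_nonneg hc.le hC3)
      (Finset.sum_nonneg fun l _ => mul_nonneg hc.le (hC1 l i))
  have hK0 : 0 ≤ K := Finset.sum_nonneg fun i _ => hterm i
  have hKi : ∀ i : Fin 3, cmG MM * C3 * ∑ l : Fin 3, cmG MM * C1 l i ≤ K := fun i =>
    Finset.single_le_sum (f := fun i : Fin 3 => cmG MM * C3 * ∑ l : Fin 3, cmG MM * C1 l i)
      (fun i _ => hterm i) (Finset.mem_univ i)
  set T : ℝ := ((MM : ℝ) + 1) * Real.sqrt volB * K with hT
  have hT0 : 0 ≤ T := by positivity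
  refine ⟨Real.exp (-(l0 * (1 / 16))) / (T + 1), by positivity, fun a ha => ?_⟩
  set ε := Real.exp (-(l0 * (1 / 16))) / (T + 1) with hε
  have hε0 : 0 < ε := by positivity
  have hlk : lk l0 0 = l0 := by unfold lk; simp
  have hRk : Rk 0 = 1 / 16 := hPr.2.1
  have hz : ∀ j : Fin 3, (fun y => F0 j y - F0 j y) = fun _ => (0 : ℂ) := fun j => by
    funext y; ring
  refine ⟨hW, sm_F0, fun i x _ => rfl, fun j i _ x => ?_, fun j => ?_, fun j i => ?_⟩
  · rw [hz, sq_zero_fun, Real.sqrt_zero]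
    simp
  · rw [hz, NN_zero]; simp
  · rw [hlk, hRk]
    have hEs : Sm (EF a F0 j i) := Sm.L ha.sm j (sm_F0 i)
    -- bound of the error
    have e1 : Bo MM (Metric.ball 0 1) (EF a F0 j i) (∑ l : Fin 3, cmG MM * ε * C1 l i) := by
      have h1 : Bo MM (Metric.ball (0 : E5) 1)
          (fun x => ∑ l : Fin 3, (a j l x - a0 j l x) * dz l (F0 i) x)
          (∑ l : Fin 3, cmG MM * ε * C1 l i) :=
        Bo.sum Finset.univ (f := fun l x => (a j l x - a0 j l x) * dz l (F0 i) x)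
          (M := fun l => cmG MM * ε * C1 l i)
          (fun l _ => ((ha.sm j l).sub (smS_a0 j l)).mul ((sm_F0 i).dz l))
          (fun l _ => mul_nonneg (mul_nonneg hc.le hε0.le) (hC1 l i))
          (fun l _ => Bo.mul ((ha.sm j l).sub (smS_a0 j l)) ((sm_F0 i).dz l)
            (fun q hq x _ => ha.bd j l q (by omega) x) (hB1 l i))
      have h2 : EF a F0 j i = fun x => ∑ l : Fin 3, (a j l x - a0 j l x) * dz l (F0 i) x := by
        funext x; exact L_diff a j i x
      rw [h2]; exact h1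
    have e2 := Bo.mul hex hEs hB3 e1
    have e3 : cmG MM * C3 * ∑ l : Fin 3, cmG MM * ε * C1 l i
        = ε * (cmG MM * C3 * ∑ l : Fin 3, cmG MM * C1 l i) := by
      simp only [Fin.sum_univ_three]; ring
    rw [e3] at e2
    have hb0 : 0 ≤ ε * (cmG MM * C3 * ∑ l : Fin 3, cmG MM * C1 l i) :=
      mul_nonneg hε0.le (hterm i)
    have h4 := NN_le_of_sup (h := fun _ => (1 : ℝ)) (fun _ => le_rfl) MM
      (Dm_open sm_F0 (1 / 16)).measurableSet (Dm_sub F0 (1 / 16)) (hex.mul hEs) hb0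
      (fun q hq x hx => e2 q hq x (Dm_sub F0 _ hx))
    refine h4.trans ?_
    have h5 : ((MM : ℝ) + 1) * Real.sqrt volB
        * (ε * (cmG MM * C3 * ∑ l : Fin 3, cmG MM * C1 l i)) ≤ ε * T := by
      rw [hT]
      have h6 : 0 ≤ ((MM : ℝ) + 1) * Real.sqrt volB * ε := by positivity
      have h7 := mul_le_mul_of_nonneg_left (hKi i) h6
      linarith
    refine h5.trans ?_
    have h8 : ε * (T + 1) = Real.exp (-(l0 * (1 / 16))) := by
      rw [hε]; field_simp
    nlinarith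

end Pool.Agent.CR5
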