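import Pool.Agent.Lib.CR5.SpecH2

/-!
# CR5, block H2: hStp, one stage (helper6, after helper69's docstring)
-/

open MeasureTheory Set Filter Topology
open scoped ENNReal ComplexConjugate

noncomputable section

namespace Pool.Agent.CR5

namespace HhStp

theorem sq_int (n : ℕ) {f : E5 → ℂ} (h : Tst f) : Integrable (sq n f) volume := by
  refine (sq_continuous n h.sm).integrable_of_hasCompactSupport
    (HasCompactSupport.intro h.cs.isCompact fun x hx => ?_)
  rw [sq_congr n (notMem_tsupport_iff_eventuallyEq.1 hx)]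
  exact sq_zero_fun n x

theorem NNu_add_le {h : ℕ → ℝ} (hh : ∀ i, 0 < h i) (m : ℕ) {f g : E5 → ℂ} (hf : Tst f)
    (hg : Tst g) : NN h m Set.univ (fun x => f x + g x) ≤ NN h m Set.univ f + NN h m Set.univ g := by
  unfold NN
  rw [← Finset.sum_add_distrib]
  refine Finset.sum_le_sum fun i _ => ?_
  rw [← mul_add]
  exact mul_le_mul_of_nonneg_left
    (sqrt_int_add_le i hf.sm hg.sm (sq_int i hf).restrict (sq_int i hg).restrict) (hh i).le

theorem tst_diff {f g : E5 → ℂ} (hf : Sm f) (hg : Sm g) (h : ∀ x, 3 / 4 ≤ ‖x‖ → f x = g x) :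
    Tst fun y => f y - g y := by
  refine ⟨hf.sub hg, HasCompactSupport.intro (isCompact_closedBall (0 : E5) (3 / 4))
    fun x hx => ?_⟩
  have h1 : 3 / 4 ≤ ‖x‖ := by
    by_contra h2
    exact hx (by rw [Metric.mem_closedBall, dist_zero_right]; linarith)
  show f x - g x = 0
  rw [h x h1, sub_self]

end HhStp

open HhStp in
theorem phStp : S_hStp := by
  intro hPr hHyp a l0 ε1 k m h F C hε0 hε1 hl hSt hS hC hexp
  obtain ⟨hR1, hR2, hd0, hd1, hRs⟩ := hPr.1 k
  obtain ⟨hk1, hks, _, _⟩ := hPr.2.2 l0 hl k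
  have hld : 0 < lk l0 k * dk k := mul_pos (by linarith) hd0
  have q0 : (0 : ℝ) < (1 / 2) ^ k := by positivity
  have q1 : ((1 : ℝ) / 2) ^ (k + 1) = (1 / 2) ^ k / 2 := by rw [pow_succ]; ring
  have q2 : ((1 : ℝ) / 2) ^ (k + 2) = (1 / 2) ^ k / 4 := by rw [pow_add]; norm_num; ring
  obtain ⟨F', hsm, hout, _, hnn, hc5, her⟩ := hSt h hS.adm (lk l0 k) (Rk k) (dk k) hk1
    (by linarith) hR2 hd0 hd1 F (hHyp a l0 ε1 k m h F hε0 hS) hC
  have hE0 := Real.exp_pos (-(lk l0 k * dk k))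
  have hnn' : ∀ j, NN h m Set.univ (fun y => F' j y - F j y) ≤ Real.exp (-(lk l0 k * dk k)) := by
    intro j
    refine (hnn j).trans (Real.exp_le_exp.2 ?_)
    nlinarith
  have hc5' : ∀ j i, i ≤ 5 → ∀ x, Real.sqrt (sq i (fun y => F' j y - F j y) x)
      ≤ Real.exp (-(lk l0 k * dk k)) := by
    intro j i hi x
    rw [Real.sqrt_le_left hE0.le]
    exact hc5 j i hi x
  have e1 : ∀ j : Fin 3, (fun y => F' j y - F0 j y)
      = fun y => (F' j y - F j y) + (F j y - F0 j y) := fun j => by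
    funext y; ring
  refine ⟨F', ⟨hS.adm, hsm, hout, fun j i hi x => ?_, fun j => ?_, fun j i => ?_⟩, hnn', hc5'⟩
  · rw [e1]
    refine (sqrt_sq_add_le i ((hsm j).sub (hS.sm j)) ((hS.sm j).sub (sm_F0 j)) x).trans ?_
    have h1 := hc5' j i hi x
    have h2 := hS.c5 j i hi x
    have h3 : Real.exp (-(lk l0 k * dk k)) + ε1 * (1 - (1 / 2) ^ k)
        ≤ ε1 * (1 - (1 / 2) ^ (k + 1)) := by
      rw [q2] at hexp
      rw [q1]
      have : 0 ≤ ε1 * (1 / 2) ^ k := by positivity
      nlinarith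
    linarith
  · rw [e1]
    have t1 : Tst fun y => F' j y - F j y := tst_diff (hsm j) (hS.sm j) fun x hx => by
      rw [hout j x hx, hS.out j x hx]
    have t2 : Tst fun y => F j y - F0 j y := tst_diff (hS.sm j) (sm_F0 j) (hS.out j)
    refine (NNu_add_le hS.adm.pos m t1 t2).trans ?_
    have h1 := hnn' j
    have h2 := hS.nn j
    have h3 : Real.exp (-(lk l0 k * dk k)) ≤ (1 / 2) ^ (k + 2) := by
      refine hexp.trans ?_
      have : (0 : ℝ) < (1 / 2) ^ (k + 2) := by positivity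
      nlinarith
    linarith
  · have h1 := her j i
    have e2 : lk l0 (k + 1) * Rk (k + 1) = 2 * lk l0 k * (Rk k - 10 * dk k) := by
      rw [hks, hRs]
    rw [e2, hks, hRs]
    exact h1

end Pool.Agent.CR5
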