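import Pool.Agent.Lib.CR5.SpecH2

/-!
# CR5, block H2: hUp, raising the order (helper6, after helper69's docstring)
-/

open MeasureTheory Set Filter Topology
open scoped ENNReal ComplexConjugate

noncomputable section

namespace Pool.Agent.CR5

namespace HhUp

theorem NN_ext {h h' : ℕ → ℝ} {m : ℕ} (he : ∀ i ≤ m, h' i = h i) (Ω : Set E5) (f : E5 → ℂ) :
    NN h' (m + 1) Ω f = NN h m Ω f + h' (m + 1) * Real.sqrt (∫ x in Ω, sq (m + 1) f x) := by
  unfold NN
  rw [Finset.sum_range_succ]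
  congr 1
  refine Finset.sum_congr rfl fun i hi => ?_
  have := Finset.mem_range.1 hi
  rw [he i (by omega)]

end HhUp

open HhUp in
theorem phUp : S_hUp := by
  intro hW2 hPr a l0 ε1 k m h F hl hε1 hS
  have q0 : (0 : ℝ) < (1 / 2) ^ k := by positivity
  have q1 : ((1 : ℝ) / 2) ^ (k + 1) = (1 / 2) ^ k / 2 := by rw [pow_succ]; ring
  have q2 : ((1 : ℝ) / 2) ^ (k + 2) = (1 / 2) ^ k / 4 := by rw [pow_add]; norm_num; ring
  obtain ⟨_, _, hd0, _, _⟩ := hPr.1 k
  obtain ⟨hk1, _, _, _⟩ := hPr.2.2 l0 hl k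
  have hld : 0 < lk l0 k * dk k := mul_pos (by linarith) hd0
  have hE1 : Real.exp (-(lk l0 k * dk k)) < 1 := by
    rw [Real.exp_lt_one_iff]; linarith
  have hE0 := Real.exp_pos (-(lk l0 k * dk k))
  set E2 := Real.exp (-(lk l0 (k + 1) * Rk (k + 1))) with hE2
  have hE20 : 0 < E2 := Real.exp_pos _
  refine ⟨⟨hS.adm, hS.sm, hS.out, hS.c5, fun j => ?_, fun j i => ?_⟩, ?_⟩
  · refine (hS.nn j).trans ?_
    rw [q1, q2]; linarith
  · refine (hS.er j i).trans ?_
    rw [← hE2]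
    nlinarith
  · set T1 : ℝ := ∑ j : Fin 3, Real.sqrt (∫ x in Set.univ, sq (m + 1) (fun y => F j y - F0 j y) x)
      with hT1
    set T2 : ℝ := ∑ j : Fin 2, ∑ i : Fin 3, Real.sqrt (∫ x in Dm F (Rk (k + 1)),
      sq (m + 1) (fun y => ex (lk l0 (k + 1)) F y * EF a F j i y) x) with hT2
    have hT10 : 0 ≤ T1 := Finset.sum_nonneg fun _ _ => Real.sqrt_nonneg _
    have hT20 : 0 ≤ T2 := Finset.sum_nonneg fun _ _ => Finset.sum_nonneg fun _ _ =>
      Real.sqrt_nonneg _
    set σ : ℝ := min ((1 / 2) ^ (k + 2)) (E2 * (1 - Real.exp (-(lk l0 k * dk k)))) with hσ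
    have hσ0 : 0 < σ := lt_min (by positivity) (mul_pos hE20 (by linarith))
    have hη : 0 < σ / (T1 + T2 + 1) := by positivity
    obtain ⟨h', he, hη', _, hA'⟩ := hW2 h m _ hS.adm hη
    have hp := hA'.pos (m + 1)
    have key : ∀ t : ℝ, 0 ≤ t → t ≤ T1 + T2 → h' (m + 1) * t ≤ σ := by
      intro t ht0 ht
      have h1 : h' (m + 1) * t ≤ σ / (T1 + T2 + 1) * (T1 + T2 + 1) :=
        mul_le_mul hη' (by linarith) ht0 hη.le
      rwa [div_mul_cancel₀ _ (by positivity)] at h1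
    have t1 : ∀ j : Fin 3, Real.sqrt (∫ x in Set.univ, sq (m + 1) (fun y => F j y - F0 j y) x)
        ≤ T1 + T2 := by
      intro j
      have := Finset.single_le_sum
        (f := fun j : Fin 3 => Real.sqrt (∫ x in Set.univ, sq (m + 1) (fun y => F j y - F0 j y) x))
        (fun _ _ => Real.sqrt_nonneg _) (Finset.mem_univ j)
      linarith
    have t2 : ∀ (j : Fin 2) (i : Fin 3), Real.sqrt (∫ x in Dm F (Rk (k + 1)),
        sq (m + 1) (fun y => ex (lk l0 (k + 1)) F y * EF a F j i y) x) ≤ T1 + T2 := by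
      intro j i
      have a1 := Finset.single_le_sum
        (f := fun i : Fin 3 => Real.sqrt (∫ x in Dm F (Rk (k + 1)),
          sq (m + 1) (fun y => ex (lk l0 (k + 1)) F y * EF a F j i y) x))
        (fun _ _ => Real.sqrt_nonneg _) (Finset.mem_univ i)
      have a2 := Finset.single_le_sum
        (f := fun j : Fin 2 => ∑ i : Fin 3, Real.sqrt (∫ x in Dm F (Rk (k + 1)),
          sq (m + 1) (fun y => ex (lk l0 (k + 1)) F y * EF a F j i y) x))
        (fun _ _ => Finset.sum_nonneg fun _ _ => Real.sqrt_nonneg _) (Finset.mem_univ j)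
      have a3 : Real.sqrt (∫ x in Dm F (Rk (k + 1)),
        sq (m + 1) (fun y => ex (lk l0 (k + 1)) F y * EF a F j i y) x) ≤ T2 := a1.trans a2
      linarith
    refine ⟨h', he, hA', hS.sm, hS.out, hS.c5, fun j => ?_, fun j i => ?_⟩
    · rw [NN_ext he]
      have h1 := key _ (Real.sqrt_nonneg _) (t1 j)
      have h2 := hS.nn j
      have h3 : σ ≤ (1 / 2) ^ (k + 2) := min_le_left _ _
      rw [q2] at h2 h3
      rw [q1]
      linarith
    · rw [NN_ext he]
      have h1 := key _ (Real.sqrt_nonneg _) (t2 j i)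
      have h2 := hS.er j i
      rw [← hE2] at h2
      have h3 : σ ≤ E2 * (1 - Real.exp (-(lk l0 k * dk k))) := min_le_right _ _
      rw [← hE2]
      linarith

end Pool.Agent.CR5
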