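import Pool.Agent.Lib.CR5.SpecH1

/-!
# CR5, block H1: assembly of the corrections
-/

set_option autoImplicit false

open MeasureTheory Set Filter Topology
open scoped ENNReal ComplexConjugate

noncomputable section

namespace Pool.Agent.CR5

namespace stCmx

/-- the constants of the substep -/
theorem numK {lam R δ C : ℝ} {p J : ℕ} (hP : PH lam R δ) (hC : 1 ≤ C) (hJ1 : 1 ≤ J)
    (hJ10 : ((J : ℝ) + 10) * δ ≤ 1) :
    1 ≤ (C * lam / (δ / J)) ^ p ∧ (C * lam / (δ / J)) ^ p ≤ (C * (lam / δ)) ^ (2 * p) ∧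
      (J : ℝ) ≤ lam / δ := by
  have hd := hP.d0
  have hl := hP.l1
  have hX := hP.X1
  have hJ1' : (1 : ℝ) ≤ J := by exact_mod_cast hJ1
  have hJX : (J : ℝ) ≤ lam / δ := by
    rw [le_div_iff₀ hd]
    nlinarith
  have e : C * lam / (δ / J) = C * (lam / δ) * J := by
    have hJ0 : (J : ℝ) ≠ 0 := by linarith
    field_simp
  have h1 : 1 ≤ C * (lam / δ) := by nlinarith
  have h2 : 1 ≤ C * (lam / δ) * J := by nlinarith
  refine ⟨?_, ?_, hJX⟩
  · rw [e]; exact one_le_pow₀ h2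
  · rw [e, pow_mul]
    apply pow_le_pow_left₀ (by linarith)
    have h3 : C * (lam / δ) * J ≤ C * (lam / δ) * (C * (lam / δ)) := by
      apply mul_le_mul_of_nonneg_left _ (by linarith)
      nlinarith
    calc C * (lam / δ) * J ≤ C * (lam / δ) * (C * (lam / δ)) := h3
      _ = (C * (lam / δ)) ^ 2 := by ring

theorem numM {lam R δ CP Cx : ℝ} (m : ℕ) (hP : PH lam R δ) (hCP : 1 ≤ CP) (hCx : 1 ≤ Cx) :
    CP * (Cx / δ ^ m) ≤ (CP * Cx * (lam / δ)) ^ (m + 1) := by
  have hd := hP.d0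
  have hl := hP.l1
  have hX := hP.X1
  have h1 : 1 ≤ CP * Cx := by nlinarith
  have h2 : 1 / δ ≤ lam / δ := div_le_div_of_nonneg_right hl hd.le
  have h3 : (1 / δ) ^ m ≤ (lam / δ) ^ m := pow_le_pow_left₀ (by positivity) h2 m
  have h4 : CP * (Cx / δ ^ m) = CP * Cx * (1 / δ) ^ m := by
    rw [one_div, inv_pow]; field_simp
  rw [h4, mul_pow]
  have h5 : CP * Cx ≤ (CP * Cx) ^ (m + 1) := by
    calc CP * Cx = (CP * Cx) ^ 1 := (pow_one _).symm
      _ ≤ _ := pow_le_pow_right₀ h1 (by omega)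
  have h6 : (lam / δ) ^ m ≤ (lam / δ) ^ (m + 1) := pow_le_pow_right₀ (by linarith) (by omega)
  exact mul_le_mul h5 (h3.trans h6) (by positivity) (by positivity)

end stCmx

open stCmx in
theorem pstCm : S_stCm := by
  intro hSUB hJ hT hUn hIt hCt hMu hSp
  obtain ⟨ε, hε, εS, hεS, hS⟩ := hSUB
  obtain ⟨εU, hεU, hU⟩ := hUn
  obtain ⟨εC, hεC, hC⟩ := hCt
  obtain ⟨Cp, hCp, hp⟩ := hSp
  refine ⟨ε, hε, min εS (min εU εC), lt_min hεS (lt_min hεU hεC), ?_⟩
  intro m B
  obtain ⟨CS, pS, hCS, hS⟩ := hS m B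
  obtain ⟨CU, pU, hCU, hU⟩ := hU m
  obtain ⟨Cx, hCx, hC⟩ := hC m
  obtain ⟨CP, hCP, hM⟩ := hMu m
  have hCPx : 1 ≤ CP * Cx := by nlinarith
  obtain ⟨C, hC1, hTT⟩ := hT (2 + CS + CU + CP * Cx + Cp) (2 * pS + pU + m + 1) (by linarith)
  refine ⟨C, hC1, ?_⟩
  intro a ha hBd hk h hA lam R δ hP F hF hlog
  obtain ⟨J, hJ1, hJ8, hJ10⟩ := hJ lam R δ hP
  have hT' := hTT lam R δ hP hlog
  have hl := hP.l1
  have hd := hP.d0
  have hX := hP.X1
  have hε0 : 0 ≤ min εS (min εU εC) := (lt_min hεS (lt_min hεU hεC)).le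
  have hFS : HypF a h m εS lam R F := hF.monoH hε0 (min_le_left _ _)
  have hFU : HypF a h m εU lam R F := hF.monoH hε0 ((min_le_right _ _).trans (min_le_left _ _))
  have hFC : FC εC F := hF.fc.monoH hε0 ((min_le_right _ _).trans (min_le_right _ _))
  have hh : ∀ i, 0 < h i := hA.pos
  -- the constants
  obtain ⟨T, hTdef⟩ : ∃ T : ℝ, T = ((2 + CS + CU + CP * Cx + Cp) * lam / δ) ^ (2 * pS + pU + m + 1) :=
    ⟨_, rfl⟩
  have hTX : T = ((2 + CS + CU + CP * Cx + Cp) * (lam / δ)) ^ (2 * pS + pU + m + 1) := by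
    rw [hTdef, mul_div_assoc]
  have hX1 : (1 : ℝ) ≤ lam / δ := by linarith
  have hT1 : 1 ≤ T := by rw [hTX]; exact pw_one (by linarith) hX1 _
  have hTJ : T ^ (J + 10) ≤ Real.exp (lam * δ / 4) := by
    rw [hTdef]; exact hT' (J + 10) (by push_cast; exact hJ10)
  have hTone : T ≤ Real.exp (lam * δ / 4) := by
    have h1 := hT' 1 (by push_cast; have := hP.d1; linarith)
    rw [← hTdef, pow_one] at h1
    exact h1
  obtain ⟨k1, k2, k3⟩ := numK (p := pS) hP hCS hJ1 hJ10
  obtain ⟨K, hK⟩ : ∃ K : ℝ, K = (CS * lam / (δ / J)) ^ pS := ⟨_, rfl⟩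
  obtain ⟨K', hK'⟩ : ∃ K' : ℝ, K' = (CU * lam / δ) ^ pU := ⟨_, rfl⟩
  rw [← hK] at k1 k2
  have bK : K ≤ T := by
    rw [hTX]; exact k2.trans (pw_le hCS (by linarith) (by omega) hX1)
  have bK' : K' ≤ T := by
    rw [hK', hTX, mul_div_assoc]; exact pw_le hCU (by linarith) (by omega) hX1
  have bK0 : 0 ≤ K' := by rw [hK']; positivity
  have bM : CP * (Cx / δ ^ m) ≤ T := by
    rw [hTX]; exact (numM m hP hCP hCx).trans (pw_le hCPx (by linarith) (by omega) hX1)
  have bX : (2 + CS + CU + CP * Cx + Cp) * (lam / δ) ≤ T := by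
    rw [hTX]
    calc (2 + CS + CU + CP * Cx + Cp) * (lam / δ)
        = ((2 + CS + CU + CP * Cx + Cp) * (lam / δ)) ^ 1 := (pow_one _).symm
      _ ≤ _ := pow_le_pow_right₀ (by nlinarith) (by omega)
  have bJ : (J : ℝ) ≤ T := by
    refine k3.trans (le_trans ?_ bX)
    nlinarith
  have b2 : (2 : ℝ) ≤ T := by
    refine le_trans ?_ bX
    nlinarith
  have bCp : Cp ≤ T := by
    refine le_trans ?_ bX
    nlinarith
  -- the substep
  have hJ1' : (1 : ℝ) ≤ J := by exact_mod_cast hJ1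
  have hs0 : 0 < δ / J := by positivity
  have hs1 : δ / J ≤ δ := div_le_self hd.le hJ1'
  have hcond : (pS : ℝ) * Real.log (CS * lam / (δ / J)) ≤ lam * δ / 4 := by
    rw [← Real.log_pow, ← hK]
    have h1 : Real.log K ≤ Real.log (Real.exp (lam * δ / 4)) :=
      Real.log_le_log (by linarith) (bK.trans hTone)
    rwa [Real.log_exp] at h1
  have hSub : SubP a h m F lam R δ (δ / J) K := by
    intro μ D ρ c1 c2 c3 c4 c5 c6 c7 E' hE' hD
    rw [hK]
    exact hS a ha hBd hk h hA lam R δ hl hP.r0 hP.r1 hd hP.d1 F hFS (δ / J) hs0 hs1 hcond μ D ρ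
      c1 c2 c3 c4 c5 c6 c7 E' hE' hD
  have hUn' : UnP h m F lam R δ K' := by
    rw [hK']; exact hU a h lam R δ F ha.sm hA hP hFU
  obtain ⟨χ, hχ, hχ1, hχs, hχb⟩ := hC F hFC lam R δ hP
  have hM0 : 0 ≤ Cx / δ ^ m := by positivity
  -- the start
  have hEsm : ∀ j k, Sm (EF a F j k) := fun j k => (hF.sm k).L ha.sm j
  have hW : ∀ k, NN2 h m (Dm F (R - 3 * δ)) (fun j x => ex lam F x * EF a F j k x)
      ≤ 2 * Real.exp (-(lam * R)) := by
    intro k
    have e1 : ∀ j, NN h m (Dm F (R - 3 * δ)) (fun x => ex lam F x * EF a F j k x)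
        ≤ Real.exp (-(lam * R)) := by
      intro j
      exact (NN_mono hh m (Dm_mono F (by linarith)) (Dm_bdd F R)
        ((ex_sm hF.sm lam).mul (hEsm j k))).trans (hF.er j k)
    unfold NN2
    linarith [e1 0, e1 1]
  have hW0 : ∀ k, 0 ≤ NN2 h m (Dm F (R - 3 * δ)) (fun j x => ex lam F x * EF a F j k x) := by
    intro k
    exact add_nonneg (NN_nonneg hh _ _ _) (NN_nonneg hh _ _ _)
  have key : ∀ k : Fin 3, ∃ u : E5 → ℂ, Sm u ∧
      NN2 h m (Dm F (R - 4 * δ)) (fun j x => ex (2 * lam) F x * (EF a F j k x - D0 a u j x))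
        ≤ K ^ J * Real.exp (-(lam * (R - 5 * δ)))
          * NN2 h m (Dm F (R - 3 * δ)) (fun j x => ex lam F x * EF a F j k x) ∧
      NN h m (Dm F (R - 6 * δ)) u
        ≤ J * (K' * K ^ J * Real.exp (lam * (R - 5 * δ))
          * NN2 h m (Dm F (R - 3 * δ)) (fun j x => ex lam F x * EF a F j k x)) := by
    intro k
    refine hIt a h m F lam R δ K K' J ha.sm hk hh hF.sm hP k1 bK0 hJ1 hJ8 hSub hUn'
      (fun j => EF a F j k) (fun j => hEsm j k) ?_
    intro x hx
    exact D1_D0_zero ha.sm (fun l => hk l x hx) (hF.sm k)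
  choose u hu1 hu2 hu3 using key
  have hexp : Real.exp (lam * (R - 5 * δ)) * Real.exp (-(lam * R)) = Real.exp (-(5 * (lam * δ))) := by
    rw [← Real.exp_add]; congr 1; ring
  have hfbd : ∀ k, NN h m univ (fun x => χ x * u k x) ≤ Real.exp (-(4 * (lam * δ))) := by
    intro k
    have h1 := (hM h hA F hF.sm R δ (Cx / δ ^ m) χ (u k) hd hχ (hu1 k) hM0 hχs hχb).2
    have h2 := hu3 k
    have h3 := hW k
    have h4 := hW0 k
    have h5 : NN h m (Dm F (R - 6 * δ)) (u k)
        ≤ T * (T * T ^ J * Real.exp (lam * (R - 5 * δ)) * (T * Real.exp (-(lam * R)))) := by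
      refine h2.trans ?_
      have h6 : NN2 h m (Dm F (R - 3 * δ)) (fun j x => ex lam F x * EF a F j k x)
          ≤ T * Real.exp (-(lam * R)) :=
        h3.trans (mul_le_mul_of_nonneg_right b2 (Real.exp_nonneg _))
      gcongr
    have h7 : 0 ≤ CP * (Cx / δ ^ m) := by positivity
    calc NN h m univ (fun x => χ x * u k x)
        ≤ CP * (Cx / δ ^ m) * NN h m (Dm F (R - 6 * δ)) (u k) := h1
      _ ≤ T * (T * (T * T ^ J * Real.exp (lam * (R - 5 * δ)) * (T * Real.exp (-(lam * R))))) := by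
          have := NN_nonneg hh m (Dm F (R - 6 * δ)) (u k)
          gcongr
      _ = T ^ (J + 4) * (Real.exp (lam * (R - 5 * δ)) * Real.exp (-(lam * R))) := by ring
      _ = T ^ (J + 4) * Real.exp (-(5 * (lam * δ))) := by rw [hexp]
      _ ≤ Real.exp (lam * δ / 4) * Real.exp (-(5 * (lam * δ))) := by
          have := (pow_le_pow_right₀ hT1 (show J + 4 ≤ J + 10 by omega)).trans hTJ
          gcongr
      _ ≤ Real.exp (-(4 * (lam * δ))) := by
          rw [← Real.exp_add]
          apply Real.exp_le_exp.2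
          have : 0 ≤ lam * δ := by positivity
          linarith
  have hball : Dm F (R - 7 * δ) ⊆ Metric.ball 0 (3 / 4) := by
    intro x hx
    rw [mem_ball_zero_iff]
    exact hx.1
  have hsup : ∀ k, tsupport (fun x => χ x * u k x) ⊆ Dm F (R - 7 * δ) := fun k =>
    (hM h hA F hF.sm R δ (Cx / δ ^ m) χ (u k) hd hχ (hu1 k) hM0 hχs hχb).1
  refine ⟨fun k x => χ x * u k x, fun j k x => EF a F j k x - L a j (u k) x,
    fun k => hχ.mul (hu1 k), fun j k => (hEsm j k).sub ((hu1 k).L ha.sm j), hsup, hfbd, ?_, ?_, ?_⟩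
  · intro k i hi x
    have h1 := hp m h hA (fun x => χ x * u k x) (hχ.mul (hu1 k)) ((hsup k).trans hball) i hi x
    refine h1.trans ?_
    have h2 := NN_nonneg hh m univ (fun x => χ x * u k x)
    have h3 : Cp * NN h m univ (fun x => χ x * u k x) ≤ Real.exp (-(3 * (lam * δ))) := by
      calc Cp * NN h m univ (fun x => χ x * u k x)
          ≤ Real.exp (lam * δ / 4) * Real.exp (-(4 * (lam * δ))) :=
            mul_le_mul (bCp.trans hTone) (hfbd k) h2 (Real.exp_nonneg _)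
        _ ≤ Real.exp (-(3 * (lam * δ))) := by
            rw [← Real.exp_add]
            apply Real.exp_le_exp.2
            have : 0 ≤ lam * δ := by positivity
            linarith
    exact pow_le_pow_left₀ (mul_nonneg (by linarith) h2) h3 2
  · intro j k x hx
    have hopen := Dm_open hF.sm (R - 8 * δ)
    have e1 : (fun y => F k y - χ y * u k y) =ᶠ[𝓝 x] fun y => F k y - u k y := by
      filter_upwards [hopen.mem_nhds hx] with y hy
      rw [hχ1 y hy, one_mul]
    show L a j (fun y => F k y - χ y * u k y) x = EF a F j k x - L a j (u k) x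
    rw [L_congr j e1, L_sub (hF.sm k) (hu1 k)]
    rfl
  · intro j k
    have h1 := hu2 k
    have h2 : NN h m (Dm F (R - 4 * δ)) (fun x => ex (2 * lam) F x * (EF a F j k x - L a j (u k) x))
        ≤ NN2 h m (Dm F (R - 4 * δ))
          (fun j x => ex (2 * lam) F x * (EF a F j k x - D0 a (u k) j x)) := by
      have n0 := NN_nonneg hh m (Dm F (R - 4 * δ))
        (fun x => ex (2 * lam) F x * (EF a F 0 k x - L a 0 (u k) x))
      have n1 := NN_nonneg hh m (Dm F (R - 4 * δ))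
        (fun x => ex (2 * lam) F x * (EF a F 1 k x - L a 1 (u k) x))
      unfold NN2 D0
      fin_cases j
      · show NN h m (Dm F (R - 4 * δ))
          (fun x => ex (2 * lam) F x * (EF a F 0 k x - L a 0 (u k) x)) ≤ _
        linarith
      · show NN h m (Dm F (R - 4 * δ))
          (fun x => ex (2 * lam) F x * (EF a F 1 k x - L a 1 (u k) x)) ≤ _
        linarith
    have h3 := hW k
    have h4 := hW0 k
    have h6 : NN2 h m (Dm F (R - 3 * δ)) (fun j x => ex lam F x * EF a F j k x)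
        ≤ T * Real.exp (-(lam * R)) :=
      h3.trans (mul_le_mul_of_nonneg_right b2 (Real.exp_nonneg _))
    have hexp2 : Real.exp (-(lam * (R - 5 * δ))) * Real.exp (-(lam * R))
        = Real.exp (-(2 * (lam * R)) + 5 * (lam * δ)) := by
      rw [← Real.exp_add]; congr 1; ring
    calc NN h m (Dm F (R - 4 * δ)) (fun x => ex (2 * lam) F x * (EF a F j k x - L a j (u k) x))
        ≤ K ^ J * Real.exp (-(lam * (R - 5 * δ)))
          * NN2 h m (Dm F (R - 3 * δ)) (fun j x => ex lam F x * EF a F j k x) := h2.trans h1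
      _ ≤ T ^ J * Real.exp (-(lam * (R - 5 * δ))) * (T * Real.exp (-(lam * R))) := by
          gcongr
      _ = T ^ (J + 1) * (Real.exp (-(lam * (R - 5 * δ))) * Real.exp (-(lam * R))) := by ring
      _ = T ^ (J + 1) * Real.exp (-(2 * (lam * R)) + 5 * (lam * δ)) := by rw [hexp2]
      _ ≤ Real.exp (lam * δ / 4) * Real.exp (-(2 * (lam * R)) + 5 * (lam * δ)) := by
          have := (pow_le_pow_right₀ hT1 (show J + 1 ≤ J + 10 by omega)).trans hTJ
          gcongr
      _ ≤ Real.exp (-(2 * (lam * R)) + 6 * (lam * δ)) := by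
          rw [← Real.exp_add]
          apply Real.exp_le_exp.2
          have : 0 ≤ lam * δ := by positivity
          linarith

end Pool.Agent.CR5
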