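import Pool.Agent.Lib.CR5.SpecH1

/-!
# CR5, block H1: the cutoff function
-/

set_option autoImplicit false

open MeasureTheory Set Filter Topology
open scoped ENNReal ComplexConjugate

noncomputable section

namespace Pool.Agent.CR5

theorem pstCt : S_stCt := by
  intro hCut hGeo
  obtain ⟨ε1, hε1, C', hC', hG⟩ := hGeo
  refine ⟨ε1, hε1, fun m => ?_⟩
  obtain ⟨C0, hC0, hcut⟩ := hCut m
  refine ⟨C0 * 8 ^ m, one_le_mul_of_one_le_of_one_le hC0 (one_le_pow₀ (by norm_num)),
    fun F hF lam R δ hP => ?_⟩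
  obtain ⟨-, -, -, hInn, -, -⟩ := hG F hF
  have hδ := hP.d0
  have hδ1 := hP.d1
  obtain ⟨χ, h1, h2, h3, h4, h5⟩ := hcut (Dm F (R - 8 * δ)) (δ / 8) (by positivity) (by linarith)
  have hI := hInn (R - 7 * δ) (R - 8 * δ) (by linarith) (by linarith [hP.r1])
  have e : (R - 7 * δ - (R - 8 * δ)) / 4 = δ / 4 := by ring
  rw [e] at hI
  refine ⟨χ, h1, fun x hx => h3 x hx x (by rw [dist_self]; positivity), fun x hx => ?_,
    fun i hi x => (h5 i hi x).trans ?_⟩
  · obtain ⟨x', hx', hd⟩ := Metric.mem_closure_iff.1 hx (δ / 8) (by positivity)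
    obtain ⟨y, hy, hd'⟩ := h4 x' hx'
    refine hI y hy ?_
    rw [Metric.mem_ball]
    have := dist_triangle x x' y
    linarith
  · have hC00 : 0 ≤ C0 := by linarith
    refine pow_le_pow_left₀ (by positivity) ?_ 2
    have a1 : C0 / (δ / 8) ^ i = C0 * 8 ^ i / δ ^ i := by
      rw [div_pow]
      field_simp
    rw [a1]
    have a2 : C0 * 8 ^ i ≤ C0 * 8 ^ m :=
      mul_le_mul_of_nonneg_left (pow_le_pow_right₀ (by norm_num) hi) hC00
    have a3 : δ ^ m ≤ δ ^ i := pow_le_pow_of_le_one hδ.le (by linarith) hi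
    exact div_le_div₀ (by positivity) a2 (by positivity) a3

end Pool.Agent.CR5
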