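import Pool.Agent.Lib.CR5.SpecH1

/-!
# CR5, block H1, stEn: the new error
-/

set_option autoImplicit false

open MeasureTheory Set Filter Topology
open scoped ENNReal ComplexConjugate

noncomputable section

namespace Pool.Agent.CR5

theorem pstEn : S_stEn := by
  intro hEX hGEO
  obtain ⟨ε1, hε1, _, _, hG⟩ := hGEO
  refine ⟨ε1, hε1, ?_⟩
  intro m
  obtain ⟨C1, p1, hC1, hE⟩ := hEX m
  refine ⟨12 * C1, p1 + m + m + 1, by linarith, ?_⟩
  intro a h lam R δ F ha hA hp hF F' hF' hgam hN j k E hEs hEE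
  have hd := hp.d0
  have hd1 := hp.d1
  have hl := hp.l1
  have hin := (hG F hF.fc).2.2.2.1 (R - 8 * δ) (R - 9 * δ) (by linarith) (by linarith [hp.r1])
  have e1 : (R - 8 * δ - (R - 9 * δ)) / 4 = δ / 4 := by ring
  rw [e1] at hin
  have hGs : Dm F' (R - 10 * δ) ⊆ Dm F (R - 9 * δ) := by
    rintro x ⟨hx, hx2⟩
    refine ⟨hx, ?_⟩
    have h1 := (hgam x hx).1
    have h2 : |(gam F' x - gam F x).im| ≤ δ := (Complex.abs_im_le_norm _).trans h1
    rw [Complex.sub_im, abs_le] at h2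
    linarith [h2.1]
  have hΩs : Dm F (R - 9 * δ) ⊆ Dm F (R - 8 * δ) := Dm_mono F (by linarith)
  have hg : Sm fun x => gam F' x - gam F x := (gam_sm hF').sub (gam_sm hF.sm)
  have hf : Sm fun x => ex (2 * lam) F x * E x := (ex_sm hF.sm _).mul hEs
  have h1 := hE h hA (δ / 4) (by linarith) (by linarith) (Dm F' (R - 10 * δ)) (Dm F (R - 9 * δ))
    (Dm F (R - 8 * δ)) (Dm_open hF' _) hGs (Dm_open hF.sm _) (Dm_open hF.sm _) hΩs hin
    (Dm_sub _ _) (fun x => gam F' x - gam F x) (fun x => ex (2 * lam) F x * E x) (2 * lam)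
    (Real.exp 1) hg hf (Real.exp_pos 1).le (by
      intro x hx
      rw [Complex.norm_exp]
      apply Real.exp_le_exp.2
      have h2 := (hgam x hx.1).2
      have h3 : (Complex.I * ((2 * lam : ℝ) : ℂ) * (gam F' x - gam F x)).re
          = -(2 * lam * (gam F' x - gam F x).im) := by
        rw [mul_assoc, Complex.I_mul_re, Complex.im_ofReal_mul]
      rw [h3]
      have h4 : |(gam F' x - gam F x).im| ≤ ‖gam F' x - gam F x‖ := Complex.abs_im_le_norm _
      have h5 := neg_abs_le (gam F' x - gam F x).im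
      nlinarith)
  have hc : NN h m (Dm F' (R - 10 * δ)) (fun x => ex (2 * lam) F' x * EF a F' j k x)
      = NN h m (Dm F' (R - 10 * δ)) (fun x => Complex.exp (Complex.I * ((2 * lam : ℝ) : ℂ)
        * (gam F' x - gam F x)) * (ex (2 * lam) F x * E x)) := by
    refine NN_congr h m (Dm_open hF' _) ?_
    intro x hx
    rw [hEE x (hΩs (hGs hx)), ← mul_assoc]
    congr 1
    simp only [ex]
    rw [← Complex.exp_add]
    congr 1
    ring
  rw [hc]
  refine h1.trans ?_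
  have hN0 : 0 ≤ NN h m (Dm F (R - 8 * δ)) (fun x => ex (2 * lam) F x * E x) :=
    NN_nonneg hA.pos _ _ _
  have hg0 : 0 ≤ NN h m (Dm F (R - 8 * δ)) (fun x => gam F' x - gam F x) :=
    NN_nonneg hA.pos _ _ _
  have hmono : NN h m (Dm F (R - 8 * δ)) (fun x => ex (2 * lam) F x * E x)
      ≤ NN h m (Dm F (R - 4 * δ)) (fun x => ex (2 * lam) F x * E x) :=
    NN_mono hA.pos m (Dm_mono F (by linarith)) (Dm_bdd _ _) hf
  have e2 : C1 / (δ / 4) = 4 * C1 / δ := by field_simp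
  rw [e2]
  set Y : ℝ := 12 * C1 * lam / δ with hY
  have hYd : Y * δ = 12 * C1 * lam := by rw [hY]; field_simp
  have y1 : 4 * C1 / δ ≤ Y := by
    rw [hY]
    apply div_le_div_of_nonneg_right _ hd.le
    nlinarith
  have y2 : 1 + |2 * lam| ≤ Y := by
    rw [abs_of_nonneg (by linarith), hY, le_div_iff₀ hd]
    nlinarith
  have y4 : 3 ≤ Y := by
    rw [hY, le_div_iff₀ hd]
    nlinarith
  have y3 : 1 + NN h m (Dm F (R - 8 * δ)) (fun x => gam F' x - gam F x) ≤ Y := by linarith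
  have y5 : Real.exp 1 ≤ Y := by
    have := Real.exp_one_lt_d9
    linarith
  have z1 : (4 * C1 / δ) ^ p1 ≤ Y ^ p1 := pow_le_pow_left₀ (by positivity) y1 _
  have z2 : (1 + |2 * lam|) ^ m ≤ Y ^ m := pow_le_pow_left₀ (by positivity) y2 _
  have z3 : (1 + NN h m (Dm F (R - 8 * δ)) (fun x => gam F' x - gam F x)) ^ m ≤ Y ^ m :=
    pow_le_pow_left₀ (by positivity) y3 _
  have hY0 : 0 ≤ Y := by linarith
  have w1 : (4 * C1 / δ) ^ p1 * (1 + |2 * lam|) ^ m ≤ Y ^ p1 * Y ^ m :=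
    mul_le_mul z1 z2 (by positivity) (by positivity)
  have w2 : (4 * C1 / δ) ^ p1 * (1 + |2 * lam|) ^ m
      * (1 + NN h m (Dm F (R - 8 * δ)) (fun x => gam F' x - gam F x)) ^ m
      ≤ Y ^ p1 * Y ^ m * Y ^ m := mul_le_mul w1 z3 (by positivity) (by positivity)
  have w3 : (4 * C1 / δ) ^ p1 * (1 + |2 * lam|) ^ m
      * (1 + NN h m (Dm F (R - 8 * δ)) (fun x => gam F' x - gam F x)) ^ m * Real.exp 1
      ≤ Y ^ p1 * Y ^ m * Y ^ m * Y := mul_le_mul w2 y5 (Real.exp_pos 1).le (by positivity)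
  have w4 := mul_le_mul w3 hmono hN0 (by positivity : 0 ≤ Y ^ p1 * Y ^ m * Y ^ m * Y)
  refine w4.trans (le_of_eq ?_)
  rw [pow_succ, pow_add, pow_add]

end Pool.Agent.CR5
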