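import Pool.Agent.Lib.CR5.SpecH1

/-!
# CR5, block H1: assembly of the stage
-/

set_option autoImplicit false

open MeasureTheory Set Filter Topology
open scoped ENNReal ComplexConjugate

noncomputable section

namespace Pool.Agent.CR5

namespace stFinx

/-- Numerical consequences. -/
theorem num {lam δ T : ℝ} (hl : 1 ≤ lam) (hδ : 0 < δ) (hT4 : 4 ≤ T)
    (hTX : 4 * (lam / δ) ≤ T) (hT : T ≤ Real.exp (lam * δ / 4)) :
    4 * Real.exp (-(3 * (lam * δ))) ≤ δ / (4 * lam) ∧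
    T * Real.exp (-(4 * (lam * δ))) ≤ 1 := by
  have hlδ : 0 < lam * δ := by positivity
  have h0 : 0 < Real.exp (lam * δ / 4) := Real.exp_pos _
  have hl0 : 0 < lam := by linarith
  constructor
  · have h1 : 4 * Real.exp (-(3 * (lam * δ))) ≤ Real.exp (-(lam * δ / 4)) := by
      calc 4 * Real.exp (-(3 * (lam * δ)))
          ≤ Real.exp (lam * δ / 4) * Real.exp (-(3 * (lam * δ))) :=
            mul_le_mul_of_nonneg_right (hT4.trans hT) (Real.exp_nonneg _)
        _ = Real.exp (lam * δ / 4 + -(3 * (lam * δ))) := (Real.exp_add _ _).symm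
        _ ≤ Real.exp (-(lam * δ / 4)) := Real.exp_le_exp.2 (by linarith)
    refine h1.trans ?_
    rw [Real.exp_neg]
    have h2 : 4 * (lam / δ) ≤ Real.exp (lam * δ / 4) := hTX.trans hT
    have h3 : δ / (4 * lam) = (4 * (lam / δ))⁻¹ := by
      field_simp
    rw [h3]
    exact inv_anti₀ (by positivity) h2
  · calc T * Real.exp (-(4 * (lam * δ)))
        ≤ Real.exp (lam * δ / 4) * Real.exp (-(4 * (lam * δ))) :=
          mul_le_mul_of_nonneg_right hT (Real.exp_nonneg _)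
      _ = Real.exp (lam * δ / 4 + -(4 * (lam * δ))) := (Real.exp_add _ _).symm
      _ ≤ 1 := Real.exp_le_one_iff.2 (by linarith)

/-- Powers are bounded by `T`. -/
theorem pows {C1 CG CE lam δ : ℝ} {pG pE : ℕ} (hG : 1 ≤ CG) (hE : 1 ≤ CE)
    (hC : C1 = 4 + CG + CE) (hl : 1 ≤ lam) (hδ : 0 < δ) (hδ1 : δ ≤ 1) :
    4 ≤ (C1 * lam / δ) ^ (pG + pE + 1) ∧ 4 * (lam / δ) ≤ (C1 * lam / δ) ^ (pG + pE + 1) ∧
    (CG / δ) ^ pG ≤ (C1 * lam / δ) ^ (pG + pE + 1) ∧
    (CE * lam / δ) ^ pE ≤ (C1 * lam / δ) ^ (pG + pE + 1) := by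
  have hX : 1 ≤ lam / δ := by rw [le_div_iff₀ hδ]; linarith
  have hb : C1 * lam / δ = C1 * (lam / δ) := mul_div_assoc _ _ _
  have hC4 : 4 ≤ C1 := by linarith
  have hbase : 4 * (lam / δ) ≤ C1 * lam / δ := by
    rw [hb]; exact mul_le_mul_of_nonneg_right hC4 (by linarith)
  have hb1 : 1 ≤ C1 * lam / δ := by linarith
  have hself : C1 * lam / δ ≤ (C1 * lam / δ) ^ (pG + pE + 1) :=
    le_self_pow₀ hb1 (by omega)
  have h2 : 4 * (lam / δ) ≤ (C1 * lam / δ) ^ (pG + pE + 1) := hbase.trans hself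
  refine ⟨by linarith, h2, ?_, ?_⟩
  · have h3 : CG / δ ≤ C1 * lam / δ := by
      refine div_le_div_of_nonneg_right ?_ hδ.le
      nlinarith
    have h4 : 0 ≤ CG / δ := by
      have : 0 ≤ CG := by linarith
      positivity
    calc (CG / δ) ^ pG ≤ (C1 * lam / δ) ^ pG := pow_le_pow_left₀ h4 h3 _
      _ ≤ _ := pow_le_pow_right₀ hb1 (by omega)
  · have h3 : CE * lam / δ ≤ C1 * lam / δ := by
      refine div_le_div_of_nonneg_right ?_ hδ.le
      nlinarith
    have h4 : 0 ≤ CE * lam / δ := by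
      have : 0 ≤ CE := by linarith
      positivity
    calc (CE * lam / δ) ^ pE ≤ (C1 * lam / δ) ^ pE := pow_le_pow_left₀ h4 h3 _
      _ ≤ _ := pow_le_pow_right₀ hb1 (by omega)

end stFinx

theorem pstFin : S_stFin := by
  intro hT hCmp hGm hEn
  obtain ⟨ε, hε, ε1c, hε1c, hc⟩ := hCmp
  obtain ⟨ε1g, hε1g, -, hg⟩ := hGm
  obtain ⟨ε1e, hε1e, he⟩ := hEn
  refine ⟨ε, hε, min ε1c (min ε1g ε1e), lt_min hε1c (lt_min hε1g hε1e), fun m B => ?_⟩
  obtain ⟨Cc, hCc, hc⟩ := hc m B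
  obtain ⟨CG, pG, hCG, hg⟩ := hg m
  obtain ⟨CE, pE, hCE, he⟩ := he m
  obtain ⟨CT, hCT, hT⟩ := hT (4 + CG + CE) (pG + pE + 1) (by linarith)
  refine ⟨Cc + CT, by linarith, ?_⟩
  intro a hN hB hk h hA lam R δ hl hR0 hR1 hδ hδ1 F hF hcond
  have hP : PH lam R δ := ⟨hl, hR0, hR1, hδ, hδ1⟩
  have hε0 : 0 ≤ min ε1c (min ε1g ε1e) := (lt_min hε1c (lt_min hε1g hε1e)).le
  have hFc : HypF a h m ε1c lam R F := hF.monoH hε0 (min_le_left _ _)
  have hFg : HypF a h m ε1g lam R F :=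
    hF.monoH hε0 ((min_le_right _ _).trans (min_le_left _ _))
  have hFe : HypF a h m ε1e lam R F :=
    hF.monoH hε0 ((min_le_right _ _).trans (min_le_right _ _))
  have hl0 : 0 < lam := by linarith
  have hlog1 : 0 ≤ Real.log lam := Real.log_nonneg hl
  have hlog2 : 0 ≤ Real.log (1 / δ) := Real.log_nonneg (by
    rw [le_div_iff₀ hδ]; linarith)
  have hcond1 : Cc * (Real.log lam + Real.log (1 / δ)) ≤ lam * δ ^ 2 :=
    (mul_le_mul_of_nonneg_right (by linarith) (by linarith)).trans hcond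
  have hcond2 : CT * (Real.log lam + Real.log (1 / δ)) ≤ lam * δ ^ 2 :=
    (mul_le_mul_of_nonneg_right (by linarith) (by linarith)).trans hcond
  have hTT := hT lam R δ hP hcond2 1 (by push_cast; linarith)
  rw [pow_one] at hTT
  obtain ⟨q1, q2, q3, q4⟩ := stFinx.pows (pG := pG) (pE := pE) hCG hCE rfl hl hδ (by linarith)
  obtain ⟨n1, n2⟩ := stFinx.num hl hδ q1 q2 hTT
  obtain ⟨f, Ee, hf, hEe, hs, hnn, hsq, hL, her⟩ := hc a hN hB hk h hA lam R δ hP F hFc hcond1
  have hlδ : 0 < lam * δ := by positivity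
  have hoff : ∀ k x, x ∉ Dm F (R - 7 * δ) → f k x = 0 := fun k x hx =>
    image_eq_zero_of_notMem_tsupport fun h' => hx (hs k h')
  have hbase : ∀ k x, x ∉ Dm F (R - 7 * δ) → F k x - f k x = F k x := fun k x hx => by
    rw [hoff k x hx, sub_zero]
  have hFsm : ∀ k, Sm (F k) := hF.sm
  have hF'sm : ∀ k, Sm (fun y => F k y - f k y) := fun k => (hFsm k).sub (hf k)
  -- bounds of `f 2`
  have hf2 : ∀ x, ‖f 2 x‖ ≤ Real.exp (-(3 * (lam * δ))) := fun x => by
    have := hsq 2 0 (by norm_num) x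
    rw [sq_zero'] at this
    exact (pow_le_pow_iff_left₀ (norm_nonneg _) (Real.exp_nonneg _) two_ne_zero).1 this
  have hf2' : ∀ x, ‖f 2 x‖ ≤ 1 := fun x => (hf2 x).trans (Real.exp_le_one_iff.2 (by linarith))
  have hnn2 : NN h m univ (f 2) ≤ 1 := (hnn 2).trans (Real.exp_le_one_iff.2 (by linarith))
  have hs2 : tsupport (f 2) ⊆ Metric.ball 0 (3 / 4) := fun x hx => by
    rw [mem_ball_zero_iff]; exact (hs 2 hx).1
  obtain ⟨g1, g2⟩ := hg a h lam R δ F hA hP hFg f hf hs2 hf2' hnn2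
  have hγ : ∀ x, ‖x‖ < 1 → ‖gam (fun k y => F k y - f k y) x - gam F x‖ ≤ δ / (4 * lam) :=
    fun x hx => (g1 x hx).trans ((mul_le_mul_of_nonneg_left (hf2 x) (by norm_num)).trans n1)
  have hNγ : NN h m (Dm F (R - 8 * δ))
      (fun x => gam (fun k y => F k y - f k y) x - gam F x) ≤ 1 := by
    refine g2.trans ((mul_le_mul q3 (hnn 2) (NN_nonneg hA.pos _ _ _) (by linarith)).trans n2)
  refine ⟨fun k y => F k y - f k y, hF'sm, ?_, ?_, ?_, ?_, ?_⟩
  · intro k x hx
    show F k x - f k x = F0 k x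
    rw [hbase k x (fun h' => by have := h'.1; linarith), hF.out k x hx]
  · intro k x hx
    exact hbase k x (fun h' => by have := h'.2; linarith)
  · intro k
    have e : (fun y => F k y - f k y - F k y) = fun y => -f k y := by funext y; ring
    show NN h m univ (fun y => F k y - f k y - F k y) ≤ _
    rw [e, NN_neg h m univ (hf k)]
    exact (hnn k).trans (Real.exp_le_exp.2 (by linarith))
  · intro k i hi x
    have e : (fun y => F k y - f k y - F k y) = fun y => -f k y := by funext y; ring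
    show sq i (fun y => F k y - f k y - F k y) x ≤ _
    rw [e, sq_neg i (hf k)]
    exact (hsq k i hi x).trans (pow_le_pow_left₀ (Real.exp_nonneg _)
      (Real.exp_le_exp.2 (by linarith)) 2)
  · intro j k
    have hb : ∀ x, ‖x‖ < 3 / 4 → ‖gam (fun k y => F k y - f k y) x - gam F x‖ ≤ δ ∧
        2 * lam * ‖gam (fun k y => F k y - f k y) x - gam F x‖ ≤ 1 := by
      intro x hx
      have h1 := hγ x (by linarith)
      have h2 : δ / (4 * lam) ≤ δ := by
        rw [div_le_iff₀ (by positivity)]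
        nlinarith
      refine ⟨h1.trans h2, ?_⟩
      calc 2 * lam * ‖gam (fun k y => F k y - f k y) x - gam F x‖
          ≤ 2 * lam * (δ / (4 * lam)) := mul_le_mul_of_nonneg_left h1 (by positivity)
        _ = δ / 2 := by field_simp; ring
        _ ≤ 1 := by linarith
    have h1 := he a h lam R δ F hN.smS hA hP hFe (fun k y => F k y - f k y) hF'sm hb hNγ j k
      (Ee j k) (hEe j k) (fun x hx => hL j k x hx)
    refine h1.trans ((mul_le_mul (q4.trans hTT) (her j k) (NN_nonneg hA.pos _ _ _)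
      (Real.exp_nonneg _)).trans ?_)
    rw [← Real.exp_add, ← Real.exp_add]
    exact Real.exp_le_exp.2 (by nlinarith)

end Pool.Agent.CR5
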