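import Pool.Agent.Lib.CR5.SpecH1

/-!
# CR5, block H1, stGm: the change of `γ`
-/

set_option autoImplicit false

open MeasureTheory Set Filter Topology
open scoped ENNReal ComplexConjugate

noncomputable section

namespace Pool.Agent.CR5

namespace stGmx

theorem h_le {h : ℕ → ℝ} {m : ℕ} (ha : Adm h m) : ∀ i, h i ≤ 1 := by
  intro i
  induction i with
  | zero => exact (ha.one 0 (by simp)).le
  | succ i ih => exact (ha.anti i).trans ih

theorem bd_ball {f : E5 → ℂ} (hf : Sm f) (m : ℕ) :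
    ∃ B : ℝ, 0 ≤ B ∧ ∀ i ≤ m, ∀ x ∈ Metric.ball (0 : E5) 1, sq i f x ≤ B ^ 2 := by
  have h1 : ∀ i : Fin (m + 1), ∃ M : ℝ, 0 ≤ M ∧ ∀ x ∈ Metric.ball (0 : E5) 1, sq i f x ≤ M := by
    intro i
    obtain ⟨M, hM⟩ := (isCompact_closedBall (0 : E5) 1).exists_bound_of_continuousOn
      (sq_continuous i hf).continuousOn
    refine ⟨|M|, abs_nonneg _, fun x hx => ?_⟩
    have h2 := hM x (Metric.ball_subset_closedBall hx)
    rw [Real.norm_eq_abs] at h2
    exact (le_abs_self _).trans (h2.trans (le_abs_self _))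
  choose M h0 hM using h1
  have hS : 0 ≤ ∑ i, M i := Finset.sum_nonneg fun i _ => h0 i
  refine ⟨1 + ∑ i, M i, by linarith, ?_⟩
  intro i hi x hx
  have h2 : M ⟨i, Nat.lt_succ_of_le hi⟩ ≤ ∑ i, M i :=
    Finset.single_le_sum (f := fun i => M i) (fun i _ => h0 i) (Finset.mem_univ _)
  refine (hM ⟨i, Nat.lt_succ_of_le hi⟩ x hx).trans (h2.trans ?_)
  nlinarith

theorem F02_le {x : E5} (hx : ‖x‖ < 1) : ‖F0 2 x‖ ≤ 1 := by
  have e1 : F0 2 x = (x 4 : ℂ) + Complex.I * (zz x : ℂ) := by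
    simp [F0]
  have h1 : ‖x‖ ^ 2 = x 0 ^ 2 + x 1 ^ 2 + x 2 ^ 2 + x 3 ^ 2 + x 4 ^ 2 := by
    rw [EuclideanSpace.norm_sq_eq]
    simp [Fin.sum_univ_succ]
    ring
  have h2 : ‖F0 2 x‖ ^ 2 = x 4 ^ 2 + zz x ^ 2 := by
    rw [e1, ← Complex.normSq_eq_norm_sq, Complex.normSq_apply]
    simp
    ring
  have h3 : zz x + x 4 ^ 2 = ‖x‖ ^ 2 := by rw [h1]; rfl
  have h4 : 0 ≤ zz x := by unfold zz; positivity
  have h5 : ‖x‖ ^ 2 ≤ 1 := by
    have := norm_nonneg x
    nlinarith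
  have h6 : zz x ≤ 1 := by nlinarith [sq_nonneg (x 4)]
  have h7 : ‖F0 2 x‖ ^ 2 ≤ 1 := by
    rw [h2]
    nlinarith
  have h8 := norm_nonneg (F0 2 x)
  nlinarith

theorem dif (F : Mp) (f : Fin 3 → E5 → ℂ) (x : E5) :
    gam (fun k y => F k y - f k y) x - gam F x
      = f 2 x * (-(1 + Complex.I / 4 * (2 * F 2 x - f 2 x))) := by
  simp only [gam]
  ring

end stGmx

open stGmx in
theorem pstGm : S_stGm := by
  intro hPR hGEO
  obtain ⟨ε2, hε2, _, _, hG⟩ := hGEO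
  refine ⟨min ε2 1, lt_min hε2 one_pos, min_le_right _ _, ?_⟩
  intro m
  obtain ⟨C1, p1, hC1, hP⟩ := hPR m
  obtain ⟨B0, hB0, hB⟩ := bd_ball (sm_F0 2) m
  set V : ℝ := (m + 1) * Real.sqrt volB with hV
  have hV0 : 0 ≤ V := by positivity
  set K : ℝ := V * 1 + 1 / 4 * (2 * (1 + V * B0) + 1) with hK
  have hK0 : 0 ≤ K := by positivity
  refine ⟨4 * C1 * (1 + K), p1 + 1, by nlinarith, ?_⟩
  intro a h lam R δ F hA hp hF f hf hs hf1 hN
  have hd := hp.d0
  have hd1 := hp.d1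
  have hmin : 0 ≤ min ε2 1 := (lt_min hε2 one_pos).le
  have hF1 : FC ε2 F := (hF.fc).monoH hmin (min_le_left _ _)
  have hin := (hG F hF1).2.2.2.1 (R - 7 * δ) (R - 8 * δ) (by linarith) (by linarith [hp.r1])
  have e1 : (R - 7 * δ - (R - 8 * δ)) / 4 = δ / 4 := by ring
  rw [e1] at hin
  constructor
  · intro x hx
    rw [dif, norm_mul, mul_comm]
    refine mul_le_mul_of_nonneg_right ?_ (norm_nonneg _)
    have h1 : ‖F 2 x - F0 2 x‖ ≤ 1 := by
      have h2 := hF.c5 2 0 (by norm_num) x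
      rw [sq_zero'] at h2
      have h3 : min ε2 1 ^ 2 ≤ 1 := pow_le_one₀ hmin (min_le_right _ _)
      have h4 := norm_nonneg (F 2 x - F0 2 x)
      nlinarith
    have h2 : ‖F 2 x‖ ≤ 2 := by
      have h3 := norm_add_le (F 2 x - F0 2 x) (F0 2 x)
      rw [sub_add_cancel] at h3
      have := F02_le hx
      linarith
    have h3 : ‖2 * F 2 x - f 2 x‖ ≤ 5 := by
      have h4 := norm_sub_le (2 * F 2 x) (f 2 x)
      rw [norm_mul] at h4
      have h5 : ‖(2 : ℂ)‖ = 2 := by simp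
      rw [h5] at h4
      have := hf1 x
      linarith
    rw [norm_neg]
    have h4 := norm_add_le (1 : ℂ) (Complex.I / 4 * (2 * F 2 x - f 2 x))
    rw [norm_mul, norm_div, Complex.norm_I, norm_one] at h4
    have h5 : ‖(4 : ℂ)‖ = 4 := by simp
    rw [h5] at h4
    linarith
  · have hg : Sm fun x => -(1 + Complex.I / 4 * (2 * F 2 x - f 2 x)) :=
      ((Sm.const 1).add ((Sm.const _).mul (((Sm.const 2).mul (hF.sm 2)).sub (hf 2)))).neg
    have e2 : (fun x => gam (fun k y => F k y - f k y) x - gam F x)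
        = fun x => f 2 x * (-(1 + Complex.I / 4 * (2 * F 2 x - f 2 x))) := by
      funext x
      exact dif F f x
    rw [e2]
    have hΩb : Dm F (R - 7 * δ) ⊆ Metric.ball 0 1 := Dm_sub _ _
    have hbd : Bornology.IsBounded (Dm F (R - 7 * δ)) := Dm_bdd _ _
    have hop : IsOpen (Dm F (R - 7 * δ)) := Dm_open hF.sm _
    have h1 := hP h hA (δ / 4) (by linarith) (by linarith) (Dm F (R - 8 * δ)) (Dm F (R - 7 * δ))
      (Dm_open hF.sm _) hop (Dm_mono F (by linarith)) hin hΩb (f 2) _ (hf 2) hg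
    have hcs : HasCompactSupport (f 2) := cs_of_sub hs
    have h2 : NN h m (Dm F (R - 7 * δ)) (f 2) ≤ NN h m univ (f 2) :=
      NN_le_univ hA.pos m _ (hf 2) hcs
    have hf0 : 0 ≤ NN h m (Dm F (R - 7 * δ)) (f 2) := NN_nonneg hA.pos _ _ _
    have hu0 : 0 ≤ NN h m univ (f 2) := NN_nonneg hA.pos _ _ _
    -- the bound of `g`
    have g1 : NN h m (Dm F (R - 7 * δ)) (fun _ => (1 : ℂ)) ≤ V * 1 := by
      refine NN_le_of_sup (h_le hA) m hop.measurableSet hΩb (Sm.const 1) zero_le_one ?_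
      intro i _ x _
      rw [sq_const]
      split_ifs <;> simp
    have g2 : NN h m (Dm F (R - 7 * δ)) (F0 2) ≤ V * B0 :=
      NN_le_of_sup (h_le hA) m hop.measurableSet hΩb (sm_F0 2) hB0
        (fun i hi x hx => hB i hi x (hΩb hx))
    have g3 : NN h m (Dm F (R - 7 * δ)) (fun y => F 2 y - F0 2 y) ≤ 1 :=
      (NN_mono hA.pos m (Dm_mono F (by linarith)) (Dm_bdd _ _)
        ((hF.sm 2).sub (sm_F0 2))).trans (hF.nn 2)
    have g4 : NN h m (Dm F (R - 7 * δ)) (F 2) ≤ 1 + V * B0 := by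
      have h3 := NN_add_le hA.pos m hbd ((hF.sm 2).sub (sm_F0 2)) (sm_F0 2)
      have e3 : (fun x => F 2 x - F0 2 x + F0 2 x) = F 2 := by
        funext x; ring
      rw [e3] at h3
      linarith
    have g5 : NN h m (Dm F (R - 7 * δ)) (fun x => 2 * F 2 x - f 2 x) ≤ 2 * (1 + V * B0) + 1 := by
      have h3 := NN_sub_le hA.pos m hbd ((Sm.const 2).mul (hF.sm 2)) (hf 2)
      rw [NN_const_mul h m _ (hF.sm 2) 2] at h3
      have h5 : ‖(2 : ℂ)‖ = 2 := by simp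
      rw [h5] at h3
      linarith
    have g6 : NN h m (Dm F (R - 7 * δ)) (fun x => -(1 + Complex.I / 4 * (2 * F 2 x - f 2 x)))
        ≤ K := by
      have hs1 : Sm fun x => 2 * F 2 x - f 2 x := ((Sm.const 2).mul (hF.sm 2)).sub (hf 2)
      rw [NN_neg h m _ ((Sm.const 1).add ((Sm.const _).mul hs1))]
      have h3 := NN_add_le hA.pos m hbd (Sm.const 1) ((Sm.const (Complex.I / 4)).mul hs1)
      rw [NN_const_mul h m _ hs1 (Complex.I / 4)] at h3
      have h5 : ‖Complex.I / 4‖ = 1 / 4 := by simp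
      rw [h5] at h3
      rw [hK]
      linarith
    have g0 : 0 ≤ NN h m (Dm F (R - 7 * δ))
        (fun x => -(1 + Complex.I / 4 * (2 * F 2 x - f 2 x))) := NN_nonneg hA.pos _ _ _
    refine h1.trans ?_
    have e4 : C1 / (δ / 4) = 4 * C1 / δ := by
      field_simp
    rw [e4]
    have q1 : 0 ≤ 4 * C1 / δ := by positivity
    have q2 : 4 * C1 / δ ≤ 4 * C1 * (1 + K) / δ := by
      apply div_le_div_of_nonneg_right _ hd.le
      nlinarith
    have q3 : K ≤ 4 * C1 * (1 + K) / δ := by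
      rw [le_div_iff₀ hd]
      nlinarith
    have q4 : (4 * C1 / δ) ^ p1 ≤ (4 * C1 * (1 + K) / δ) ^ p1 := pow_le_pow_left₀ q1 q2 p1
    have q5 : 0 ≤ (4 * C1 / δ) ^ p1 := by positivity
    calc (4 * C1 / δ) ^ p1 * NN h m (Dm F (R - 7 * δ)) (f 2)
          * NN h m (Dm F (R - 7 * δ)) (fun x => -(1 + Complex.I / 4 * (2 * F 2 x - f 2 x)))
        ≤ (4 * C1 / δ) ^ p1 * NN h m univ (f 2) * K := by
          exact mul_le_mul (mul_le_mul_of_nonneg_left h2 q5) g6 g0 (mul_nonneg q5 hu0)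
      _ = ((4 * C1 / δ) ^ p1 * K) * NN h m univ (f 2) := by ring
      _ ≤ ((4 * C1 * (1 + K) / δ) ^ p1 * (4 * C1 * (1 + K) / δ)) * NN h m univ (f 2) := by
          refine mul_le_mul_of_nonneg_right ?_ hu0
          exact mul_le_mul q4 q3 hK0 (by positivity)
      _ = (4 * C1 * (1 + K) / δ) ^ (p1 + 1) * NN h m univ (f 2) := by rw [pow_succ]

end Pool.Agent.CR5
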