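import Pool.Agent.Lib.CR5.SpecH1

/-!
# CR5, block H1: the iteration of the substep
-/

set_option autoImplicit false

open MeasureTheory Set Filter Topology
open scoped ENNReal ComplexConjugate

noncomputable section

namespace Pool.Agent.CR5

namespace stItx

theorem D0_sm {a : Str} (ha : SmS a) {v : E5 → ℂ} (hv : Sm v) (j : Fin 2) : Sm (D0 a v j) :=
  hv.D0 ha j

/-- The exponents. -/
theorem expo {lam R δ D n : ℝ} (hD : 0 ≤ D) (hδ : 0 ≤ δ) (hn : 0 ≤ n)
    (hDR : D * R ≤ lam * δ / 8) (hlam : 0 ≤ lam) :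
    (lam + (n + 1) * D) * (R - 6 * δ) + D * R - n * (D * (R - 5 * δ))
      ≤ lam * (R - 5 * δ) := by
  have h1 : (lam + (n + 1) * D) * (R - 6 * δ) + D * R - n * (D * (R - 5 * δ))
      = lam * (R - 6 * δ) + 2 * (D * R) - 6 * (D * δ) - n * (D * δ) := by ring
  have h2 : 0 ≤ D * δ := mul_nonneg hD hδ
  have h3 : 0 ≤ n * (D * δ) := mul_nonneg hn h2
  have h4 : 0 ≤ lam * δ := mul_nonneg hlam hδ
  rw [h1]
  nlinarith

theorem D1_sub {a : Str} (ha : SmS a) {E : F2} (hE : ∀ j, Sm (E j)) {v : E5 → ℂ} (hv : Sm v)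
    {x : E5} (hk : ∀ l, kap a l x = 0) (h : D1 a E x = 0) :
    D1 a (fun j x => E j x - D0 a v j x) x = 0 := by
  have h0 := D1_D0_zero ha hk hv
  unfold D1 at h h0 ⊢
  rw [L_sub (hE 1) (D0_sm ha hv 1), L_sub (hE 0) (D0_sm ha hv 0)]
  linear_combination h - h0

theorem step {a : Str} {h : ℕ → ℝ} {m : ℕ} {F : Mp} {lam R δ K K' : ℝ} {J n : ℕ} (ha : SmS a)
    (hk : ∀ l x, ‖x‖ < 3 / 4 → kap a l x = 0) (hh : ∀ i, 0 < h i)
    (hP : PH lam R δ) (hK : 1 ≤ K) (hK' : 0 ≤ K') (hF : ∀ k, Sm (F k)) (hJ : 1 ≤ J)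
    (hJR : 8 * R ≤ J * δ) (hS : SubP a h m F lam R δ (δ / J) K) (hU : UnP h m F lam R δ K')
    {E : F2} (hE : ∀ j, Sm (E j)) (hE1 : ∀ x, ‖x‖ < 3 / 4 → D1 a E x = 0) {W0 : ℝ}
    (hW : 0 ≤ W0) (hn : n + 1 ≤ J) {v : E5 → ℂ} (hv : Sm v)
    (h1 : NN2 h m (Dm F (R - 3 * δ - n * (δ / J)))
        (fun j x => ex (lam + n * (lam / J)) F x * (E j x - D0 a v j x))
      ≤ (K * Real.exp (-(lam / J * (R - 5 * δ)))) ^ n * W0)
    (h2 : NN h m (Dm F (R - 6 * δ)) v ≤ n * (K' * K ^ n * Real.exp (lam * (R - 5 * δ)) * W0)) :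
    ∃ v' : E5 → ℂ, Sm v' ∧
      NN2 h m (Dm F (R - 3 * δ - (n + 1 : ℕ) * (δ / J)))
        (fun j x => ex (lam + (n + 1 : ℕ) * (lam / J)) F x * (E j x - D0 a v' j x))
      ≤ (K * Real.exp (-(lam / J * (R - 5 * δ)))) ^ (n + 1) * W0 ∧
      NN h m (Dm F (R - 6 * δ)) v'
        ≤ (n + 1 : ℕ) * (K' * K ^ (n + 1) * Real.exp (lam * (R - 5 * δ)) * W0) := by
  have hJ0 : (0 : ℝ) < J := by exact_mod_cast hJ
  have hn0 : (0 : ℝ) ≤ n := Nat.cast_nonneg n
  have hnJ : (n : ℝ) + 1 ≤ J := by exact_mod_cast hn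
  have hlam : 0 < lam := lt_of_lt_of_le one_pos hP.l1
  have hδ := hP.d0
  obtain ⟨D, hDd⟩ : ∃ D, D = lam / J := ⟨_, rfl⟩
  obtain ⟨s, hsd⟩ : ∃ s, s = δ / J := ⟨_, rfl⟩
  rw [← hDd, ← hsd] at h1
  rw [← hsd] at hS
  rw [← hDd, ← hsd]
  have hD0 : 0 < D := by rw [hDd]; positivity
  have hs0 : 0 < s := by rw [hsd]; positivity
  have hJD : (J : ℝ) * D = lam := by rw [hDd]; field_simp
  have hJs : (J : ℝ) * s = δ := by rw [hsd]; field_simp
  have hnD : ((n : ℝ) + 1) * D ≤ lam := by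
    rw [← hJD]; exact mul_le_mul_of_nonneg_right hnJ hD0.le
  have hns : ((n : ℝ) + 1) * s ≤ δ := by
    calc ((n : ℝ) + 1) * s ≤ J * s := mul_le_mul_of_nonneg_right hnJ hs0.le
      _ = δ := hJs
  have hnD0 : 0 ≤ (n : ℝ) * D := by positivity
  have hns0 : 0 ≤ (n : ℝ) * s := by positivity
  have hDR : D * R ≤ lam * δ / 8 := by
    have : D * (8 * R) ≤ D * (J * δ) := mul_le_mul_of_nonneg_left hJR hD0.le
    have e : D * (J * δ) = lam * δ := by rw [← hJD]; ring
    rw [e] at this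
    linarith
  obtain ⟨u, hu, u1, u2⟩ := hS (lam + n * D) D (R - 3 * δ - n * s) (by linarith)
    (by linarith) hD0 (by linarith) hDR (by linarith) (by linarith)
    (fun j x => E j x - D0 a v j x) (fun j => (hE j).sub (D0_sm ha hv j))
    (fun x hx => D1_sub ha hE hv (fun l => hk l x hx.1) (hE1 x hx.1))
  have eρ : R - 3 * δ - n * s - s = R - 3 * δ - (n + 1 : ℕ) * s := by push_cast; ring
  have eμ : lam + n * D + D = lam + (n + 1 : ℕ) * D := by push_cast; ring
  rw [eρ, eμ] at u1 u2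
  have hq0 : 0 ≤ K * Real.exp (-(D * (R - 5 * δ))) := by positivity
  have hK0 : 0 ≤ K := by linarith
  refine ⟨fun x => v x + u x, hv.add hu, ?_, ?_⟩
  · have e : (fun (j : Fin 2) x => ex (lam + (n + 1 : ℕ) * D) F x *
        (E j x - D0 a (fun x => v x + u x) j x))
        = fun j x => ex (lam + (n + 1 : ℕ) * D) F x * (E j x - D0 a v j x - D0 a u j x) := by
      funext j x
      have : D0 a (fun x => v x + u x) j x = D0 a v j x + D0 a u j x := L_add hv hu j x
      rw [this, sub_add_eq_sub_sub]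
    rw [e, pow_succ]
    calc _ ≤ K * Real.exp (-(D * (R - 5 * δ))) * _ := u1
      _ ≤ K * Real.exp (-(D * (R - 5 * δ)))
          * ((K * Real.exp (-(D * (R - 5 * δ)))) ^ n * W0) :=
          mul_le_mul_of_nonneg_left h1 hq0
      _ = _ := by ring
  · have b1 := NN_add_le hh m (Dm_bdd F (R - 6 * δ)) hv hu
    have b2 := hU (lam + (n + 1 : ℕ) * D) (by push_cast; nlinarith) (by push_cast; linarith) u hu
    have b3 : NN h m (Dm F (R - 4 * δ)) (fun x => ex (lam + (n + 1 : ℕ) * D) F x * u x)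
        ≤ NN h m (Dm F (R - 3 * δ - (n + 1 : ℕ) * s))
          (fun x => ex (lam + (n + 1 : ℕ) * D) F x * u x) :=
      NN_mono hh m (Dm_mono F (by push_cast; linarith)) (Dm_bdd F _) ((ex_sm hF _).mul hu)
    have b4 : NN h m (Dm F (R - 6 * δ)) u
        ≤ K' * K ^ (n + 1) * Real.exp (lam * (R - 5 * δ)) * W0 := by
      have c1 : NN h m (Dm F (R - 4 * δ)) (fun x => ex (lam + (n + 1 : ℕ) * D) F x * u x)
          ≤ K * Real.exp (D * R) * ((K * Real.exp (-(D * (R - 5 * δ)))) ^ n * W0) :=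
        b3.trans (u2.trans (mul_le_mul_of_nonneg_left h1 (by positivity)))
      have c2 := b2.trans (mul_le_mul_of_nonneg_left c1 (by positivity))
      have e0 : K' * Real.exp ((lam + (n + 1 : ℕ) * D) * (R - 6 * δ)) * (K * Real.exp (D * R)
            * ((K * Real.exp (-(D * (R - 5 * δ)))) ^ n * W0))
          = K' * K ^ (n + 1) * W0 * Real.exp
            ((lam + ((n : ℝ) + 1) * D) * (R - 6 * δ) + D * R - n * (D * (R - 5 * δ))) := by
        have e1 : Real.exp ((lam + ((n : ℝ) + 1) * D) * (R - 6 * δ) + D * R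
            - n * (D * (R - 5 * δ))) = Real.exp ((lam + ((n : ℝ) + 1) * D) * (R - 6 * δ))
            * Real.exp (D * R) * Real.exp (-(D * (R - 5 * δ))) ^ n := by
          rw [← Real.exp_nat_mul, ← Real.exp_add, ← Real.exp_add]
          congr 1
          ring
        rw [e1, mul_pow]
        push_cast
        ring
      rw [e0] at c2
      refine c2.trans ?_
      have c3 := Real.exp_le_exp.2 (expo (lam := lam) (R := R) (δ := δ) (D := D) (n := n)
        hD0.le hδ.le hn0 hDR hlam.le)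
      calc K' * K ^ (n + 1) * W0 * _ ≤ K' * K ^ (n + 1) * W0 * Real.exp (lam * (R - 5 * δ)) :=
            mul_le_mul_of_nonneg_left c3 (by positivity)
        _ = _ := by ring
    have b5 : (n : ℝ) * (K' * K ^ n * Real.exp (lam * (R - 5 * δ)) * W0)
        ≤ n * (K' * K ^ (n + 1) * Real.exp (lam * (R - 5 * δ)) * W0) := by
      refine mul_le_mul_of_nonneg_left ?_ hn0
      refine mul_le_mul_of_nonneg_right ?_ hW
      refine mul_le_mul_of_nonneg_right ?_ (Real.exp_nonneg _)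
      refine mul_le_mul_of_nonneg_left ?_ hK'
      exact pow_le_pow_right₀ hK (by omega)
    have e : ((n + 1 : ℕ) : ℝ) * (K' * K ^ (n + 1) * Real.exp (lam * (R - 5 * δ)) * W0)
        = n * (K' * K ^ (n + 1) * Real.exp (lam * (R - 5 * δ)) * W0)
          + K' * K ^ (n + 1) * Real.exp (lam * (R - 5 * δ)) * W0 := by push_cast; ring
    rw [e]
    linarith

end stItx

theorem pstIt : S_stIt := by
  intro a h m F lam R δ K K' J ha hk hh hF hP hK hK' hJ hJR hS hU E hE hE1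
  obtain ⟨W0, hW0d⟩ : ∃ W0, W0 = NN2 h m (Dm F (R - 3 * δ)) (fun j x => ex lam F x * E j x) :=
    ⟨_, rfl⟩
  have hW : 0 ≤ W0 := by
    rw [hW0d]
    exact add_nonneg (NN_nonneg hh m _ _) (NN_nonneg hh m _ _)
  have main : ∀ n : ℕ, n ≤ J → ∃ v : E5 → ℂ, Sm v ∧
      NN2 h m (Dm F (R - 3 * δ - n * (δ / J)))
        (fun j x => ex (lam + n * (lam / J)) F x * (E j x - D0 a v j x))
      ≤ (K * Real.exp (-(lam / J * (R - 5 * δ)))) ^ n * W0 ∧
      NN h m (Dm F (R - 6 * δ)) v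
        ≤ n * (K' * K ^ n * Real.exp (lam * (R - 5 * δ)) * W0) := by
    intro n
    induction n with
    | zero =>
      intro _
      refine ⟨fun _ => 0, Sm.const 0, ?_, ?_⟩
      · have e : (fun (j : Fin 2) x => ex (lam + (0 : ℕ) * (lam / J)) F x *
            (E j x - D0 a (fun _ => 0) j x)) = fun j x => ex lam F x * E j x := by
          funext j x
          have : D0 a (fun _ => 0) j x = 0 := L_const a 0 j x
          rw [this, sub_zero, Nat.cast_zero, zero_mul, add_zero]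
        rw [e, pow_zero, one_mul, Nat.cast_zero, zero_mul, sub_zero, hW0d]
      · rw [NN_zero, Nat.cast_zero, zero_mul]
    | succ n ih =>
      intro hn
      obtain ⟨v, hv, h1, h2⟩ := ih (by omega)
      exact stItx.step ha hk hh hP hK hK' hF hJ hJR hS hU hE hE1 hW hn hv h1 h2
  obtain ⟨u, hu, h1, h2⟩ := main J le_rfl
  have hJ0 : (0 : ℝ) < J := by exact_mod_cast hJ
  have e1 : R - 3 * δ - J * (δ / J) = R - 4 * δ := by field_simp; ring
  have e2 : lam + J * (lam / J) = 2 * lam := by field_simp; ring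
  have e3 : (K * Real.exp (-(lam / J * (R - 5 * δ)))) ^ J
      = K ^ J * Real.exp (-(lam * (R - 5 * δ))) := by
    rw [mul_pow, ← Real.exp_nat_mul]
    congr 2
    field_simp
  rw [e1, e2, e3] at h1
  refine ⟨u, hu, ?_, ?_⟩
  · rw [← hW0d]; exact h1
  · rw [← hW0d]; exact h2

end Pool.Agent.CR5
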