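import Pool.Agent.Lib.CR5.SpecH1

/-!
# CR5, block H1, stJ: the number of substeps
-/

set_option autoImplicit false

open MeasureTheory Set Filter Topology
open scoped ENNReal ComplexConjugate

noncomputable section

namespace Pool.Agent.CR5

theorem pstJ : S_stJ := by
  intro lam R δ h
  have hd := h.d0
  have hd1 := h.d1
  have hr0 := h.r0
  have hr1 := h.r1
  have hpos : 0 < 8 * R / δ := div_pos (by linarith) hd
  refine ⟨⌈8 * R / δ⌉₊, Nat.ceil_pos.2 hpos, ?_, ?_⟩
  · have h1 := Nat.le_ceil (8 * R / δ)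
    rwa [div_le_iff₀ hd] at h1
  · have h1 := Nat.ceil_lt_add_one hpos.le
    have h2 : (⌈8 * R / δ⌉₊ : ℝ) * δ < (8 * R / δ + 1) * δ := mul_lt_mul_of_pos_right h1 hd
    have h3 : (8 * R / δ + 1) * δ = 8 * R + δ := by
      field_simp
    rw [h3] at h2
    nlinarith

end Pool.Agent.CR5
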