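import Pool.Agent.Lib.CR5.SpecH1

/-!
# CR5, block H1: multiplication by the cutoff function
-/

set_option autoImplicit false

open MeasureTheory Set Filter Topology
open scoped ENNReal ComplexConjugate

noncomputable section

namespace Pool.Agent.CR5

theorem pstMu : S_stMu := by
  intro hPB m
  obtain ⟨C, hC, h⟩ := hPB m
  refine ⟨C, hC, fun w hw F hF R δ M χ u hδ hχ hu hM hs hb => ?_⟩
  have h1 : tsupport (fun x => χ x * u x) ⊆ Dm F (R - 7 * δ) :=
    (tsupport_mul_subset_left).trans hs
  refine ⟨h1, ?_⟩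
  rw [NN_univ_eq w m h1]
  have h2 := h w hw (Dm F (R - 7 * δ)) (Dm_open hF _) (Dm_sub F _) u χ M hu hχ
    (fun i hi x _ => hb i hi x) hM
  refine h2.trans (mul_le_mul_of_nonneg_left
    (NN_mono hw.pos m (Dm_mono F (by linarith)) (Dm_bdd F _) hu) ?_)
  have : 0 ≤ C := by linarith
  positivity

end Pool.Agent.CR5
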