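import Pool.Agent.Lib.CR5.SpecH1

/-!
# CR5, block H1: stSp, pointwise bounds from weighted sums (helper77, after helper41's docstring)
-/

set_option autoImplicit false

open MeasureTheory Set Filter Topology
open scoped ENNReal ComplexConjugate

noncomputable section

namespace Pool.Agent.CR5

theorem pstSp : S_stSp := by
  intro hSup
  obtain ⟨C, p, hC, hS⟩ := hSup
  have hC4 : 1 ≤ C / (1 / 4 : ℝ) := by
    rw [le_div_iff₀ (by norm_num)]
    linarith
  refine ⟨(C / (1 / 4 : ℝ)) ^ p, one_le_pow₀ hC4, ?_⟩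
  intro m h hA f hf hsupp i hi x
  have hcs : HasCompactSupport f := cs_of_sub hsupp
  have hMM : 10 ≤ m := hA.big
  by_cases hx : x ∈ Metric.ball (0 : E5) (3 / 4)
  · have hInn : Inn (Metric.ball (0 : E5) (3 / 4)) (Metric.ball 0 1) (1 / 4) := by
      intro y hy z hz
      rw [Metric.mem_ball] at hy hz ⊢
      calc dist z 0 ≤ dist z y + dist y 0 := dist_triangle _ _ _
        _ < 1 / 4 + 3 / 4 := add_lt_add hz hy
        _ = 1 := by norm_num
    have h1 := hS m h hA (1 / 4) (by norm_num) (by norm_num) _ _ hInn (Subset.refl _) f hf i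
      (by omega) x hx
    have h2 : h (i + 5) = 1 := hA.one (i + 5) (by show i + 5 ≤ 10; omega)
    rw [h2, one_mul] at h1
    have h3 : NN h m (Metric.ball (0 : E5) 1) f ≤ NN h m univ f := NN_le_univ hA.pos m _ hf hcs
    have h4 : Real.sqrt (sq i f x) ≤ (C / (1 / 4 : ℝ)) ^ p * NN h m univ f :=
      h1.trans (mul_le_mul_of_nonneg_left h3 (zero_le_one.trans (one_le_pow₀ hC4)))
    have h5 : 0 ≤ sq i f x := sq_nonneg' i f x
    calc sq i f x = Real.sqrt (sq i f x) ^ 2 := (Real.sq_sqrt h5).symm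
      _ ≤ _ := pow_le_pow_left₀ (Real.sqrt_nonneg _) h4 2
  · rw [sq_off (fun h' => hx (hsupp h')) i]
    positivity

end Pool.Agent.CR5
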