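import Pool.Agent.Lib.CR5.SpecH1

/-!
# CR5, block H1: powers of the constants are absorbed
-/

set_option autoImplicit false

open MeasureTheory Set Filter Topology
open scoped ENNReal ComplexConjugate

noncomputable section

namespace Pool.Agent.CR5

theorem pstT : S_stT := by
  intro C1 p1 hC1
  have hlC : 0 ≤ Real.log C1 := Real.log_nonneg hC1
  refine ⟨4 * p1 * (Real.log C1 + 1) + 1, ?_, ?_⟩
  · have : 0 ≤ 4 * (p1 : ℝ) * (Real.log C1 + 1) := by positivity
    linarith
  intro lam R δ hP hC N hN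
  have hl1 := hP.l1
  have hd0 := hP.d0
  have hd1 := hP.d1
  have hlam0 : 0 < lam := by linarith
  have hC0 : 0 < C1 := by linarith
  set l : ℝ := Real.log lam + Real.log (1 / δ) with hl
  have hlog : Real.log (C1 * lam / δ) = Real.log C1 + l := by
    rw [hl, mul_div_assoc, Real.log_mul hC0.ne' (by positivity), Real.log_div hlam0.ne' hd0.ne',
      one_div, Real.log_inv]
    ring
  have hl1' : 1 ≤ l := by
    have h1 : 0 ≤ Real.log lam := Real.log_nonneg hl1
    have h2 : 1 ≤ Real.log (1 / δ) := by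
      rw [Real.le_log_iff_exp_le (by positivity)]
      have h3 := Real.exp_one_lt_d9
      have h4 : (1000 : ℝ) ≤ 1 / δ := by
        rw [le_div_iff₀ hd0]; linarith
      linarith
    rw [hl]; linarith
  have hpos : 0 < C1 * lam / δ := by positivity
  have hpow : ((C1 * lam / δ) ^ p1) ^ N = Real.exp ((p1 * N : ℝ) * (Real.log C1 + l)) := by
    rw [← pow_mul, ← Real.exp_log (pow_pos hpos (p1 * N)), Real.log_pow, hlog]
    push_cast
    rfl
  rw [hpow]
  apply Real.exp_le_exp.2
  have hN0 : (0 : ℝ) ≤ N := Nat.cast_nonneg N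
  have hp0 : (0 : ℝ) ≤ p1 := Nat.cast_nonneg p1
  have h1 : Real.log C1 + l ≤ (Real.log C1 + 1) * l := by nlinarith
  have h2 : (p1 * N : ℝ) * (Real.log C1 + l) ≤ (p1 * N : ℝ) * ((Real.log C1 + 1) * l) :=
    mul_le_mul_of_nonneg_left h1 (by positivity)
  have h3 : (N : ℝ) * ((4 * p1 * (Real.log C1 + 1) + 1) * l) ≤ N * (lam * δ ^ 2) :=
    mul_le_mul_of_nonneg_left hC hN0
  have h4 : (N : ℝ) * (lam * δ ^ 2) ≤ lam * δ := by
    have : (N : ℝ) * (lam * δ ^ 2) = (N * δ) * (lam * δ) := by ring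
    rw [this]
    have h5 : 0 ≤ lam * δ := by positivity
    nlinarith
  have h5 : 0 ≤ (N : ℝ) * l := by positivity
  nlinarith

end Pool.Agent.CR5
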