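import Pool.Agent.Lib.CR5.SpecH1

/-!
# CR5, block H1: the bound of `u` by `e^{iμγ} u`
-/

set_option autoImplicit false

open MeasureTheory Set Filter Topology
open scoped ENNReal ComplexConjugate

noncomputable section

namespace Pool.Agent.CR5

namespace stUnx

/-- The numerical part. -/
theorem num {C1 C2 X lam μ δ N : ℝ} {p1 p2 m : ℕ} (h1 : 1 ≤ C1) (h2 : 1 ≤ C2) (hX : 1 ≤ X)
    (_hl : 1 ≤ lam) (hlX : lam ≤ X) (hd : 0 < δ) (hdX : 1 / δ ≤ X) (m0 : 0 ≤ μ) (m1 : μ ≤ 2 * lam)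
    (N0 : 0 ≤ N) (N1 : N ≤ (C2 * X) ^ p2) :
    (C1 / (δ / 4)) ^ p1 * (1 + μ) ^ m * (1 + N) ^ m
      ≤ (24 * C1 * C2 * X) ^ (p1 + m + (p2 + 1) * m) := by
  have hC : 1 ≤ C1 * C2 := by nlinarith
  have a1 : C1 / (δ / 4) ≤ 24 * C1 * C2 * X := by
    have e : C1 / (δ / 4) = 4 * C1 * (1 / δ) := by
      field_simp
    rw [e]
    have b1 : 4 * C1 * (1 / δ) ≤ 4 * C1 * X := mul_le_mul_of_nonneg_left hdX (by linarith)
    have b2 : 4 * C1 ≤ 24 * C1 * C2 := by nlinarith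
    have b3 : 4 * C1 * X ≤ 24 * C1 * C2 * X := mul_le_mul_of_nonneg_right b2 (by linarith)
    linarith
  have a2 : 1 + μ ≤ 24 * C1 * C2 * X := by
    have b1 : 1 + μ ≤ 3 * X := by linarith
    have b2 : 3 * X ≤ 24 * C1 * C2 * X := mul_le_mul_of_nonneg_right (by nlinarith) (by linarith)
    linarith
  have c1 : 1 ≤ C2 * X := by nlinarith
  have c2 : 1 ≤ (C2 * X) ^ p2 := one_le_pow₀ c1
  have a3 : 1 + N ≤ (24 * C1 * C2 * X) ^ (p2 + 1) := by
    have b1 : 1 + N ≤ 2 * (C2 * X) ^ p2 := by linarith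
    have b2 : C2 * X ≤ 24 * C1 * C2 * X := by
      have : C2 ≤ 24 * C1 * C2 := by nlinarith
      exact mul_le_mul_of_nonneg_right this (by linarith)
    have b3 : (C2 * X) ^ p2 ≤ (24 * C1 * C2 * X) ^ p2 := pow_le_pow_left₀ (by linarith) b2 p2
    have b4 : 2 ≤ 24 * C1 * C2 * X := by nlinarith
    calc 1 + N ≤ 2 * (C2 * X) ^ p2 := b1
      _ ≤ (24 * C1 * C2 * X) * (24 * C1 * C2 * X) ^ p2 :=
        mul_le_mul b4 b3 (by linarith) (by linarith)
      _ = (24 * C1 * C2 * X) ^ (p2 + 1) := by ring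
  have p0 : 0 ≤ C1 / (δ / 4) := by positivity
  have q0 : 0 ≤ 24 * C1 * C2 * X := by linarith
  rw [pow_add, pow_add, pow_mul]
  refine mul_le_mul (mul_le_mul (pow_le_pow_left₀ p0 a1 p1) (pow_le_pow_left₀ (by linarith) a2 m)
    (pow_nonneg (by linarith) m) (pow_nonneg q0 p1)) (pow_le_pow_left₀ (by linarith) a3 m)
    (pow_nonneg (by linarith) m) (mul_nonneg (pow_nonneg q0 p1) (pow_nonneg q0 m))

end stUnx

open stUnx in
theorem pstUn : S_stUn := by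
  intro hE hL hG
  obtain ⟨e1, he1, L1⟩ := hL
  obtain ⟨e2, he2, Cg, hCg, G1⟩ := hG
  refine ⟨min e1 e2, lt_min he1 he2, ?_⟩
  intro m
  obtain ⟨C1, p1, hC1, E1⟩ := hE m
  obtain ⟨C2, p2, hC2, L2⟩ := L1 m
  refine ⟨24 * C1 * C2, p1 + m + (p2 + 1) * m, by nlinarith, ?_⟩
  intro a h lam R δ F ha hh hP HF μ m0 m1 u hu
  have hp : 0 ≤ min e1 e2 := (lt_min he1 he2).le
  have H1 := HF.monoH hp (min_le_left e1 e2)
  have H2 := (HF.monoH hp (min_le_right e1 e2)).fc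
  have d0 := hP.d0
  have d1 := hP.d1
  have l1 := hP.l1
  have r1 := hP.r1
  have smF := HF.sm
  have inn : Inn (Dm F (R - 5 * δ)) (Dm F (R - 4 * δ)) (δ / 4) := by
    have h1 := (G1 F H2).2.2.2.1 (R - 4 * δ) (R - 5 * δ) (by linarith) (by linarith)
    have e : (R - 4 * δ - (R - 5 * δ)) / 4 = δ / 4 := by ring
    rwa [e] at h1
  have hb : ∀ x ∈ Dm F (R - 6 * δ), ‖Complex.exp (Complex.I * ((-μ : ℝ) : ℂ) * gam F x)‖
      ≤ Real.exp (μ * (R - 6 * δ)) := by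
    intro x hx
    have e : Complex.exp (Complex.I * ((-μ : ℝ) : ℂ) * gam F x) = ex (-μ) F x := rfl
    rw [e, ex_norm]
    apply Real.exp_le_exp.2
    have h1 : (gam F x).im < R - 6 * δ := hx.2
    nlinarith
  have key := E1 h hh (δ / 4) (by linarith) (by linarith) (Dm F (R - 6 * δ)) (Dm F (R - 5 * δ))
    (Dm F (R - 4 * δ)) (Dm_open smF _) (Dm_mono F (by linarith)) (Dm_open smF _) (Dm_open smF _)
    (Dm_mono F (by linarith)) inn (Dm_sub F _) (gam F) (fun x => ex μ F x * u x) (-μ)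
    (Real.exp (μ * (R - 6 * δ))) (gam_sm smF) ((ex_sm smF μ).mul hu) (Real.exp_pos _).le hb
  have e1' : (fun x => Complex.exp (Complex.I * ((-μ : ℝ) : ℂ) * gam F x) * (ex μ F x * u x))
      = u := by
    funext x
    have e : Complex.exp (Complex.I * ((-μ : ℝ) : ℂ) * gam F x) = ex (-μ) F x := rfl
    rw [e, ← mul_assoc, ex_neg_mul, one_mul]
  rw [e1', abs_neg, abs_of_nonneg m0] at key
  set N := NN h m (Dm F (R - 4 * δ)) (gam F) with hN
  have N0 : 0 ≤ N := NN_nonneg hh.pos m _ _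
  have X1 : 1 ≤ lam / δ := by
    have := hP.X1
    linarith
  have N1 : N ≤ (C2 * (lam / δ)) ^ p2 := by
    have h1 := (L2 a h lam R δ F ha hh l1 hP.r0 r1 d0 d1 H1).1
    rw [mul_div_assoc] at h1
    exact (NN_mono hh.pos m (Dm_mono F (by linarith)) (Dm_bdd F _) (gam_sm smF)).trans h1
  have lX : lam ≤ lam / δ := by
    rw [le_div_iff₀ d0]
    nlinarith
  have dX : 1 / δ ≤ lam / δ := div_le_div_of_nonneg_right l1 d0.le
  have nu := num (p1 := p1) (m := m) hC1 hC2 X1 l1 lX d0 dX m0 m1 N0 N1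
  have e3 : 24 * C1 * C2 * lam / δ = 24 * C1 * C2 * (lam / δ) := by rw [mul_div_assoc]
  rw [e3]
  refine key.trans ?_
  have W0 : 0 ≤ NN h m (Dm F (R - 4 * δ)) (fun x => ex μ F x * u x) := NN_nonneg hh.pos m _ _
  exact mul_le_mul_of_nonneg_right (mul_le_mul_of_nonneg_right nu (Real.exp_pos _).le) W0

end Pool.Agent.CR5
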