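import Pool.Agent.Lib.CR5.F.Ifd

/-!
# CR5, block H: limits in `C^∞`
-/

open MeasureTheory Set Filter Topology
open scoped ENNReal ComplexConjugate

noncomputable section

namespace Pool.Agent.CR5

namespace HLim

/-- Make an eventual summable bound hold for all indices. -/
theorem all_bound {q : ℕ → E5 → ℝ} (hq : ∀ k, ∃ M : ℝ, ∀ x, q k x ≤ M)
    {b : ℕ → ℝ} (hb : Summable b) (he : ∀ᶠ k in atTop, ∀ x, q k x ≤ b k) :
    ∃ b' : ℕ → ℝ, Summable b' ∧ ∀ k x, q k x ≤ b' k := by
  classical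
  choose M hM using hq
  obtain ⟨K, hK⟩ := eventually_atTop.1 he
  refine ⟨fun k => if k < K then M k else b k, ?_, ?_⟩
  · rw [← summable_nat_add_iff K]
    have : (fun k => (fun k => if k < K then M k else b k) (k + K)) = fun k => b (k + K) := by
      funext k; simp
    rw [this]
    exact (summable_nat_add_iff K).2 hb
  · intro k x
    by_cases h : k < K
    · simp only [h, if_true]; exact hM k x
    · simp only [h, if_false]; exact hK k (not_lt.1 h) x

theorem bdd_of_tst {u : E5 → ℂ} (hu : Tst u) (i : ℕ) : ∃ M : ℝ, 0 ≤ M ∧ ∀ x, sq i u x ≤ M := by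
  obtain ⟨r, hr⟩ := hu.cs.isCompact.isBounded.subset_closedBall (0 : E5)
  have hc : IsCompact (Metric.closedBall (0 : E5) r) := isCompact_closedBall _ _
  obtain ⟨M, hM⟩ := (hc.image (sq_continuous i hu.sm)).bddAbove
  refine ⟨max M 0, le_max_right _ _, fun x => ?_⟩
  by_cases hx : x ∈ Metric.closedBall (0 : E5) r
  · exact (hM ⟨x, hx, rfl⟩).trans (le_max_left _ _)
  · have hx' : x ∉ tsupport u := fun h => hx (hr h)
    have : sq i u x = sq i (fun _ => (0 : ℂ)) x :=
      sq_congr i (notMem_tsupport_iff_eventuallyEq.1 hx')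
    rw [this, sq_zero_fun]
    exact le_max_right _ _

theorem sum_sq_le {ι : Type*} (s : Finset ι) {f : ι → ℝ} (hf : ∀ i ∈ s, 0 ≤ f i) :
    ∑ i ∈ s, f i ^ 2 ≤ (∑ i ∈ s, f i) ^ 2 := by
  classical
  induction s using Finset.induction_on with
  | empty => simp
  | insert i s hi ih =>
    rw [Finset.sum_insert hi, Finset.sum_insert hi]
    have h1 := ih fun k hk => hf k (Finset.mem_insert_of_mem hk)
    have h2 := hf i (Finset.mem_insert_self _ _)
    have h3 : 0 ≤ ∑ k ∈ s, f k := Finset.sum_nonneg fun k hk => hf k (Finset.mem_insert_of_mem hk)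
    nlinarith [mul_nonneg h2 h3]

/-- A cutoff function. -/
theorem exists_cut {ρ ρ' : ℝ} (h0 : 0 < ρ) (h1 : ρ < ρ') : ∃ χ : E5 → ℂ, Tst χ ∧
    (∀ x, ‖x‖ < ρ → χ =ᶠ[𝓝 x] fun _ => 1) ∧ ∀ x, ρ' ≤ ‖x‖ → χ =ᶠ[𝓝 x] fun _ => 0 := by
  let b : ContDiffBump (0 : E5) := ⟨ρ, (ρ + ρ') / 2, h0, by linarith⟩
  refine ⟨fun x => (b x : ℂ), ⟨?_, ?_⟩, ?_, ?_⟩
  · exact Sm.ofReal b.contDiff
  · exact b.hasCompactSupport.comp_left (g := fun r : ℝ => (r : ℂ)) Complex.ofReal_zero
  · intro x hx
    have : Metric.ball (0 : E5) ρ ∈ 𝓝 x := Metric.isOpen_ball.mem_nhds (by simpa using hx)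
    filter_upwards [this] with y hy
    have : b y = 1 := b.one_of_mem_closedBall (Metric.ball_subset_closedBall hy)
    rw [this]; simp
  · intro x hx
    have : (Metric.closedBall (0 : E5) ((ρ + ρ') / 2))ᶜ ∈ 𝓝 x :=
      Metric.isClosed_closedBall.isOpen_compl.mem_nhds (by
        simp only [mem_compl_iff, Metric.mem_closedBall, dist_zero_right, not_le]; linarith)
    filter_upwards [this] with y hy
    simp only [mem_compl_iff, Metric.mem_closedBall, not_le] at hy
    have : b y = 0 := b.zero_of_le_dist hy.le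
    rw [this]; simp

end HLim

open HLim in
/-- **Limits in `C^∞`.**  If all derivatives of `u k` are bounded on the ball of radius `ρ'` by
summable sequences (eventually), then `∑ u k` converges on the ball of radius `ρ` together with its
first derivatives to a smooth function. -/
theorem limC (u : ℕ → E5 → ℂ) (hu : ∀ k, Sm (u k)) {ρ ρ' : ℝ} (h0 : 0 < ρ) (h1 : ρ < ρ')
    (hb : ∀ i : ℕ, ∃ b : ℕ → ℝ, Summable b ∧ ∀ᶠ k in atTop, ∀ x, ‖x‖ < ρ' →
      Real.sqrt (sq i (u k) x) ≤ b k) :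
    ∃ g : E5 → ℂ, Sm g ∧ ∀ x, ‖x‖ < ρ →
      Tendsto (fun n => ∑ k ∈ Finset.range n, u k x) atTop (𝓝 (g x)) ∧
      ∀ j, Tendsto (fun n => ∑ k ∈ Finset.range n, pd j (u k) x) atTop (𝓝 (pd j g x)) := by
  obtain ⟨χ, hχ, hone, hzero⟩ := exists_cut h0 h1
  choose b hbs hbe using hb
  choose M hM0 hM using fun i => bdd_of_tst hχ i
  set v : ℕ → E5 → ℂ := fun k x => χ x * u k x with hv
  have hvt : ∀ k, Tst (v k) := fun k => Tst.mul_right hχ (hu k)
  -- bounds for the derivatives of `v`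
  set w : ℕ → ℕ → ℝ := fun i k => 2 ^ i * ∑ j ∈ Finset.range (i + 1),
    Real.sqrt (M j) * |b (i - j) k| with hw
  have hws : ∀ i, Summable (w i) := fun i =>
    (summable_sum fun j _ => ((hbs (i - j)).abs).mul_left _).mul_left _
  have hwe : ∀ i, ∀ᶠ k in atTop, ∀ x, ‖iteratedFDeriv ℝ i (v k) x‖ ≤ w i k := by
    intro i
    have hall : ∀ᶠ k in atTop, ∀ j ∈ Finset.range (i + 1), ∀ x, ‖x‖ < ρ' →
        Real.sqrt (sq j (u k) x) ≤ b j k := by
      rw [eventually_all_finset]
      exact fun j _ => hbe j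
    filter_upwards [hall] with k hk x
    refine (norm_ifd_le i (hvt k).sm x).trans ?_
    have hw0 : 0 ≤ w i k := by
      refine mul_nonneg (by positivity) (Finset.sum_nonneg fun j _ => ?_)
      positivity
    by_cases hx : ‖x‖ < ρ'
    · apply Real.sqrt_le_iff.2
      refine ⟨hw0, (sq_mul_le i hχ.sm (hu k) x).trans ?_⟩
      have t1 : ∑ j ∈ Finset.range (i + 1), sq j χ x * sq (i - j) (u k) x
          ≤ ∑ j ∈ Finset.range (i + 1), (Real.sqrt (M j) * |b (i - j) k|) ^ 2 := by
        refine Finset.sum_le_sum fun j hj => ?_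
        rw [mul_pow, Real.sq_sqrt (hM0 j)]
        refine mul_le_mul (hM j x) ?_ (sq_nonneg' _ _ _) (hM0 j)
        have a1 := hk (i - j) (Finset.mem_range.2 (by omega)) x hx
        have a2 : sq (i - j) (u k) x = Real.sqrt (sq (i - j) (u k) x) ^ 2 :=
          (Real.sq_sqrt (sq_nonneg' _ _ _)).symm
        rw [a2]
        exact pow_le_pow_left₀ (Real.sqrt_nonneg _) (a1.trans (le_abs_self _)) 2
      have t2 : ∑ j ∈ Finset.range (i + 1), (Real.sqrt (M j) * |b (i - j) k|) ^ 2
          ≤ (∑ j ∈ Finset.range (i + 1), Real.sqrt (M j) * |b (i - j) k|) ^ 2 :=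
        sum_sq_le _ fun j _ => by positivity
      calc (4 : ℝ) ^ i * ∑ j ∈ Finset.range (i + 1), sq j χ x * sq (i - j) (u k) x
          ≤ 4 ^ i * (∑ j ∈ Finset.range (i + 1), Real.sqrt (M j) * |b (i - j) k|) ^ 2 :=
            mul_le_mul_of_nonneg_left (t1.trans t2) (by positivity)
        _ = w i k ^ 2 := by
            rw [hw]
            simp only [mul_pow]
            rw [← pow_mul, mul_comm i 2, pow_mul]
            norm_num
    · have : sq i (v k) x = 0 := by
        have e : v k =ᶠ[𝓝 x] fun _ => 0 := by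
          filter_upwards [hzero x (not_lt.1 hx)] with y hy
          simp [hv, hy]
        rw [sq_congr i e, sq_zero_fun]
      rw [this, Real.sqrt_zero]
      exact hw0
  have hg : Sm fun x => ∑' k, v k x := by
    refine contDiff_tsum_of_eventually (N := (⊤ : ℕ∞)) (fun k => (hvt k).sm)
      (fun i _ => hws i) (fun i _ => ?_)
    rw [Nat.cofinite_eq_atTop]
    exact hwe i
  refine ⟨fun x => ∑' k, v k x, hg, ?_⟩
  -- bounds for all `k`
  obtain ⟨b0, hb0s, hb0⟩ := all_bound (q := fun k x => ‖v k x‖)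
    (fun k => by
      obtain ⟨M0, h, h'⟩ := bdd_of_tst (hvt k) 0
      refine ⟨Real.sqrt M0, fun x => ?_⟩
      have := Real.sqrt_le_sqrt (h' x)
      rwa [sq_zero', Real.sqrt_sq (norm_nonneg _)] at this)
    (hws 0) (by
      filter_upwards [hwe 0] with k hk x
      have := hk x
      rwa [norm_iteratedFDeriv_zero] at this)
  obtain ⟨b1, hb1s, hb1⟩ := all_bound (q := fun k x => ‖fderiv ℝ (v k) x‖)
    (fun k => by
      obtain ⟨M0, h, h'⟩ := bdd_of_tst (hvt k) 1
      refine ⟨Real.sqrt M0, fun x => ?_⟩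
      have := (norm_ifd_le 1 (hvt k).sm x).trans (Real.sqrt_le_sqrt (h' x))
      rwa [norm_iteratedFDeriv_one] at this)
    (hws 1) (by
      filter_upwards [hwe 1] with k hk x
      have := hk x
      rwa [norm_iteratedFDeriv_one] at this)
  intro x hx
  have hev : ∀ k, v k =ᶠ[𝓝 x] u k := fun k => by
    filter_upwards [hone x hx] with y hy
    simp [hv, hy]
  have hs0 : ∀ y, Summable fun k => v k y := fun y =>
    Summable.of_norm_bounded hb0s fun k => hb0 k y
  constructor
  · have e : ∀ n, ∑ k ∈ Finset.range n, u k x = ∑ k ∈ Finset.range n, v k x := fun n =>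
      Finset.sum_congr rfl fun k _ => (hev k).eq_of_nhds.symm
    simp only [e]
    exact (hs0 x).hasSum.tendsto_sum_nat
  · intro j
    have hd : fderiv ℝ (fun y => ∑' k, v k y) x = ∑' k, fderiv ℝ (v k) x :=
      fderiv_tsum_apply hb1s (fun k => (hvt k).sm.diff) (fun k y => hb1 k y) (hs0 x) x
    have hs1 : Summable fun k => fderiv ℝ (v k) x :=
      Summable.of_norm_bounded hb1s fun k => hb1 k x
    have hs : HasSum (fun k => fderiv ℝ (v k) x (e5 j)) ((∑' k, fderiv ℝ (v k) x) (e5 j)) :=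
      (ContinuousLinearMap.apply ℝ ℂ (e5 j)).hasSum hs1.hasSum
    have e : ∀ n, ∑ k ∈ Finset.range n, pd j (u k) x
        = ∑ k ∈ Finset.range n, fderiv ℝ (v k) x (e5 j) := fun n =>
      Finset.sum_congr rfl fun k _ => ((pd_congr (hev k) j).eq_of_nhds).symm
    simp only [e]
    have e2 : pd j (fun y => ∑' k, v k y) x = (∑' k, fderiv ℝ (v k) x) (e5 j) := by
      show fderiv ℝ (fun y => ∑' k, v k y) x (e5 j) = _
      rw [hd]
    rw [e2]
    exact hs.tendsto_sum_nat

end Pool.Agent.CR5
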