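import Pool.Agent.Lib.CR5.SpecH2

/-!
# CR5, hSup
-/

open MeasureTheory Set Filter Topology
open scoped ENNReal ComplexConjugate

noncomputable section

namespace Pool.Agent.CR5

namespace HhSup

theorem tst_sq : ∀ (n : ℕ) {f : E5 → ℂ}, Tst f → HasCompactSupport (sq n f)
  | 0, f, h => h.cs.comp_left (g := fun z : ℂ => ‖z‖ ^ 2) (by simp)
  | n + 1, f, h => by
    have e : sq (n + 1) f = (((sq n (pd 0 f) + sq n (pd 1 f)) + sq n (pd 2 f))
        + sq n (pd 3 f)) + sq n (pd 4 f) := by
      funext x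
      simp only [sq_succ, Fin.sum_univ_five, Pi.add_apply]
    rw [e]
    exact ((((tst_sq n (h.pd 0)).add (tst_sq n (h.pd 1))).add (tst_sq n (h.pd 2))).add
      (tst_sq n (h.pd 3))).add (tst_sq n (h.pd 4))

theorem int_sq (n : ℕ) {f : E5 → ℂ} (h : Tst f) : Integrable (sq n f) volume :=
  (sq_continuous n h.sm).integrable_of_hasCompactSupport (tst_sq n h)

end HhSup

open HhSup in
theorem phSup : S_hSup := by
  intro hSob M H g u hg hH heq hM hunb hNN i
  obtain ⟨C, p, hC, hS⟩ := hSob
  obtain ⟨K, hK⟩ := hunb (i + 5)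
  have hmono : Monotone M := monotone_nat_of_le_succ hM
  have hHK : ∀ k, K ≤ k → ∀ q ≤ M K, H k q = H K q := by
    intro k hk
    induction k, hk using Nat.le_induction with
    | base => intro q _; rfl
    | succ k hk ih =>
      intro q hq
      rw [heq k q (hq.trans (hmono hk)), ih q hq]
  refine ⟨C ^ p * ∑ q ∈ Finset.range 6, 1 / H K (i + q), K, fun k hk x => ?_⟩
  have h1 := hS (g k) i x 1 (hg k).sm one_pos le_rfl
  rw [div_one] at h1
  refine h1.trans ?_
  have hCp : 0 ≤ C ^ p := by positivity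
  rw [mul_assoc, Finset.sum_mul]
  refine mul_le_mul_of_nonneg_left (Finset.sum_le_sum fun q hq => ?_) hCp
  have hq' := Finset.mem_range.1 hq
  have hqM : i + q ≤ M K := by omega
  have h2 : Real.sqrt (∫ y in Metric.ball x 1, sq (i + q) (g k) y)
      ≤ Real.sqrt (∫ y in Set.univ, sq (i + q) (g k) y) :=
    Real.sqrt_le_sqrt (setIntegral_mono_set (int_sq _ (hg k)).integrableOn
      (ae_of_all _ fun y => sq_nonneg' _ _ _) (subset_univ _).eventuallyLE)
  have h3 := (NN_term (hH k) (hqM.trans (hmono hk)) Set.univ (g k)).trans (hNN k)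
  rw [hHK k hk _ hqM] at h3
  have h4 := hH K (i + q)
  refine h2.trans ?_
  rw [one_div, inv_mul_eq_div, le_div_iff₀ h4, mul_comm]
  exact h3

end Pool.Agent.CR5
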